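import Pool.Agent.Y812.TM.Four

/-!
Project QT, task N2: the quadratic twists of `X_0(14)`, unconditionally.
-/

set_option autoImplicit false

open UpperHalfPlane MatrixGroups CongruenceSubgroup

namespace Pool.Agent.Y812.QTN2

open Pool.Agent.Y19.QT (IsFormOf TwistsModular IsLFun HasTwists)

/-- the `L`-functions of all quadratic twists, for a curve all of whose twists are modular -/
theorem of_twistsModular {a b : ℤ} (hab : 4 * a ^ 3 + 27 * b ^ 2 ≠ 0) (h : TwistsModular a b) :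
    HasTwists a b ∧ ∀ d : ℤ, d ≠ 0 → ∃ F : ℂ → ℂ, IsLFun (a * d ^ 2) (b * d ^ 3) F := by
  refine ⟨?_, ?_⟩
  · exact Pool.Agent.Y691.QT.T10_of (fun a b N f hf m hm hsq hco =>
      Pool.Agent.Y496.QT10a.T10a a b N f hf m hm hsq hco) a b hab h
  · intro d hd
    obtain ⟨N, f, hf⟩ := h d hd
    refine Pool.Agent.Y818.QT13b.T13b (a * d ^ 2) (b * d ^ 3) ?_ N f hf
    have e : 4 * (a * d ^ 2) ^ 3 + 27 * (b * d ^ 3) ^ 2 = (4 * a ^ 3 + 27 * b ^ 2) * d ^ 6 := by ring
    rw [e]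
    exact mul_ne_zero hab (pow_ne_zero 6 hd)

/-- N2: the quadratic twists of `X_0(14)` -/
theorem N2 : HasTwists 5805 (-285714) ∧ ∀ d : ℤ, Squarefree d →
    ∃ F : ℂ → ℂ, IsLFun (5805 * d ^ 2) (-285714 * d ^ 3) F := by
  obtain ⟨h1, h2⟩ := of_twistsModular (a := 5805) (b := -285714) (by norm_num) TM.twists14
  exact ⟨h1, fun d hd => h2 d hd.ne_zero⟩

end Pool.Agent.Y812.QTN2
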