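import Pool.Agent.Y702.M.All
import Pool.Agent.Y812.QTN2

/-!
Project QT: the quadratic twists of `X_0(11)`, unconditionally. The curve `y² + y = x³ - x² - 10 x - 20`
has the short Weierstrass equation `y² = x³ - 13392 x - 1080432`.
-/

set_option autoImplicit false

open UpperHalfPlane MatrixGroups CongruenceSubgroup Filter Topology
open scoped ModularForm Pointwise

namespace Pool.Agent.Y812.QTN11

open Pool.Agent.W97.TW (f11)
open Pool.Agent.W97.MT (affCount z_ne)
open Pool.Agent.Y702 (E11)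
open Pool.Agent.Y702.M (cc cc_eq cc_one coeff_int f11_eq ff_W newf)
open Pool.Agent.Y812.TM (AL AL_one AL_of_one twistsModular)
open Pool.Agent.Y19.QT (coef IsFormOf TwistsModular IsLFun HasTwists ap)

lemma coef_eq (n : ℕ) : coef f11 n = cc n := rfl

/-- the number of solutions of the short Weierstrass equation -/
theorem points_card (l : ℕ) (hl : l.Prime) (h2 : l ≠ 2) (h3 : l ≠ 3) :
    Nat.card {x : ZMod l × ZMod l //
      x.2 ^ 2 = x.1 ^ 3 + ((-13392 : ℤ) : ZMod l) * x.1 + ((-1080432 : ℤ) : ZMod l)} =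
    affCount E11 l := by
  have : Fact l.Prime := ⟨hl⟩
  have n2 : (2 : ZMod l) ≠ 0 := by
    intro h
    have : ((2 : ℕ) : ZMod l) = 0 := by exact_mod_cast h
    rw [ZMod.natCast_eq_zero_iff] at this
    exact h2 ((Nat.prime_dvd_prime_iff_eq hl Nat.prime_two).1 this)
  have n3 : (3 : ZMod l) ≠ 0 := by
    intro h
    have : ((3 : ℕ) : ZMod l) = 0 := by exact_mod_cast h
    rw [ZMod.natCast_eq_zero_iff] at this
    exact h3 ((Nat.prime_dvd_prime_iff_eq hl Nat.prime_three).1 this)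
  have n36 : (36 : ZMod l) ≠ 0 := by
    rw [show (36 : ZMod l) = 2 ^ 2 * 3 ^ 2 by norm_num]
    exact mul_ne_zero (pow_ne_zero 2 n2) (pow_ne_zero 2 n3)
  have n216 : (216 : ZMod l) ≠ 0 := by
    rw [show (216 : ZMod l) = 2 ^ 3 * 3 ^ 3 by norm_num]
    exact mul_ne_zero (pow_ne_zero 3 n2) (pow_ne_zero 3 n3)
  unfold affCount
  symm
  refine Nat.card_congr
    { toFun := fun x => ⟨(36 * x.1.1 - 12, 216 * x.1.2 + 108), ?_⟩
      invFun := fun x => ⟨((x.1.1 + 12) / 36, (x.1.2 - 108) / 216), ?_⟩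
      left_inv := ?_
      right_inv := ?_ }
  · have h := x.2
    rw [WeierstrassCurve.Affine.equation_iff] at h
    simp only [E11, WeierstrassCurve.map, map_one, map_zero, map_neg, map_ofNat] at h
    push_cast at h ⊢
    linear_combination 46656 * h
  · have h := x.2
    rw [WeierstrassCurve.Affine.equation_iff]
    simp only [E11, WeierstrassCurve.map, map_one, map_zero, map_neg, map_ofNat]
    push_cast at h ⊢
    have e1 : x.1.1 = 36 * ((x.1.1 + 12) / 36) - 12 := by field_simp; ring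
    have e2 : x.1.2 = 216 * ((x.1.2 - 108) / 216) + 108 := by
      field_simp
      ring
    set u := (x.1.1 + 12) / 36 with hu
    set v := (x.1.2 - 108) / 216 with hv
    rw [e1, e2] at h
    have n46656 : (46656 : ZMod l) ≠ 0 := by
      rw [show (46656 : ZMod l) = 216 * 216 by norm_num]
      exact mul_ne_zero n216 n216
    apply mul_left_cancel₀ n46656
    linear_combination h
  · intro x
    ext
    · show (36 * x.1.1 - 12 + 12) / 36 = x.1.1
      field_simp
      ring
    · show (216 * x.1.2 + 108 - 108) / 216 = x.1.2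
      field_simp
      ring
  · intro x
    ext
    · show 36 * ((x.1.1 + 12) / 36) - 12 = x.1.1
      field_simp
      ring
    · show 216 * ((x.1.2 - 108) / 216) + 108 = x.1.2
      field_simp
      ring

/-- `c(p) = a_p` for the short Weierstrass equation -/
theorem points (l : ℕ) (hl : l.Prime) (h2 : l ≠ 2) (h3 : l ≠ 3) :
    cc l = (ap (-13392) (-1080432) l : ℂ) := by
  rw [cc_eq hl]
  unfold ap Pool.Agent.W97.MT.ap
  rw [points_card l hl h2 h3]

theorem good (l : ℕ) (hl : l.Prime) (h11 : l ≠ 11) : ‖cc l‖ ≤ 2 * Real.sqrt l := by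
  obtain ⟨-, -, -, m2, m3, m5, m11, mb⟩ := Pool.Agent.Y702.P.s_min11
  by_cases h2 : l = 2
  · subst h2
    rw [cc_eq hl]
    unfold Pool.Agent.W97.MT.ap
    rw [m2]
    norm_num
  by_cases h3 : l = 3
  · subst h3
    rw [cc_eq hl]
    unfold Pool.Agent.W97.MT.ap
    rw [m3]
    have h : (1 : ℝ) ≤ Real.sqrt 3 := by
      rw [Real.one_le_sqrt]; norm_num
    norm_num
    linarith
  · rw [points l hl h2 h3]
    unfold ap
    rw [Complex.norm_intCast]
    have : Fact l.Prime := ⟨hl⟩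
    have hc : ringChar (ZMod l) ≠ 2 := by
      rw [ZMod.ringChar_zmod_n]; exact h2
    have h := W165.CE.hasse (k := ZMod l) hc ((-13392 : ℤ) : ZMod l) ((-1080432 : ℤ) : ZMod l)
    rw [ZMod.card] at h
    exact_mod_cast h

theorem bad (l : ℕ) (hl : l.Prime) (h : l ∣ 11) : ‖cc l‖ ≤ 1 := by
  obtain ⟨-, -, -, m2, m3, m5, m11, mb⟩ := Pool.Agent.Y702.P.s_min11
  obtain rfl : l = 11 := (Nat.prime_dvd_prime_iff_eq hl (by norm_num)).1 h
  rw [cc_eq hl]
  unfold Pool.Agent.W97.MT.ap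
  rw [m11]
  norm_num

theorem fricke_eq (τ τ' : ℍ) (h : (τ' : ℂ) * ((11 : ℂ) * (τ : ℂ)) = -1) :
    f11 τ' = -(11 * (τ : ℂ) ^ 2) * f11 τ := by
  have h0 : (τ : ℂ) ≠ 0 := z_ne τ.im_pos
  have e1 : (τ' : ℂ) = -1 / (11 * (τ : ℂ)) := by
    rw [eq_div_iff (mul_ne_zero (by norm_num) h0)]
    exact h
  rw [f11_eq τ', f11_eq τ, e1, ff_W τ.im_pos]

/-- the newform of `X_0(11)` -/
theorem isForm11 : IsFormOf (-13392) (-1080432) 11 f11 := by
  refine ⟨by norm_num, cc_one, ?_, newf.mul, ?_, ?_, ?_, ?_, ?_⟩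
  · intro n
    obtain ⟨c, hc⟩ := coeff_int n
    change ((qExpansion 1 f11).coeff n).im = 0
    rw [hc]
    simp
  · intro p j hp
    exact Pool.Agent.Y702.M.pow p j hp
  · intro p hp h
    refine good p hp ?_
    rintro rfl
    exact h dvd_rfl
  · intro p hp h
    exact bad p hp h
  · refine ⟨1, Or.inl rfl, fun τ τ' hτ => ?_⟩
    have := fricke_eq τ τ' (by exact_mod_cast hτ)
    rw [this]
    push_cast
    ring
  · intro p hp h
    have h2 : p ≠ 2 := by
      rintro rfl
      exact h (dvd_mul_right _ _)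
    have h3 : p ≠ 3 := by
      rintro rfl
      exact h (by norm_num)
    have h11 : p ≠ 11 := by
      rintro rfl
      exact h (by norm_num)
    refine ⟨fun hd => h11 ((Nat.prime_dvd_prime_iff_eq hp (by norm_num)).1 hd),
      points p hp h2 h3⟩

/-- all Atkin-Lehner involutions -/
theorem AL11 (M R : ℕ) (hMR : M * R = 11) : ∃ ε : ℝ, (ε = 1 ∨ ε = -1) ∧ AL f11 M R ε := by
  have hM : M ∣ 11 := ⟨R, hMR.symm⟩
  rcases (Nat.dvd_prime (by norm_num)).1 hM with rfl | rfl
  · obtain rfl : R = 11 := by omega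
    exact ⟨1, Or.inl rfl, by
      have := AL_one f11
      push_cast
      exact this⟩
  · obtain rfl : R = 1 := by omega
    refine ⟨-1, Or.inr rfl, AL_of_one f11 (by norm_num) rfl (A₀ := 0) (B₀ := -1) (C₀ := 1)
      (D₀ := 0) (by norm_num) ?_⟩
    intro z hz
    have h0 : z ≠ 0 := z_ne hz
    have hz' : 0 < (-1 / (11 * z) : ℂ).im := Pool.Agent.Y702.M.W_pos hz
    have e : (((11 : ℕ) : ℂ) * ((0 : ℤ) : ℂ) * z + ((-1 : ℤ) : ℂ)) /
        (((11 : ℕ) : ℂ) * ((1 : ℕ) : ℂ) * ((1 : ℤ) : ℂ) * z + ((11 : ℕ) : ℂ) * ((0 : ℤ) : ℂ)) =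
        -1 / (11 * z) := by
      push_cast
      congr 1 <;> ring
    rw [e]
    have h1 := fricke_eq ⟨z, hz⟩ ⟨-1 / (11 * z), hz'⟩ (by
      show -1 / (11 * z) * (11 * z) = -1
      field_simp)
    rw [ofComplex_apply_of_im_pos hz', ofComplex_apply_of_im_pos hz, h1]
    show -(11 * z ^ 2) * f11 ⟨z, hz⟩ = _
    push_cast
    ring

/-- all quadratic twists of `X_0(11)` are modular -/
theorem twists11 : TwistsModular (-13392) (-1080432) :=
  twistsModular isForm11 (show Nat.Prime 11 by norm_num).squarefree AL11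

/-- the quadratic twists of `X_0(11)` -/
theorem N11 : HasTwists (-13392) (-1080432) ∧ ∀ d : ℤ, d ≠ 0 →
    ∃ F : ℂ → ℂ, IsLFun (-13392 * d ^ 2) (-1080432 * d ^ 3) F :=
  QTN2.of_twistsModular (a := -13392) (b := -1080432) (by norm_num) twists11

end Pool.Agent.Y812.QTN11
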