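import Mathlib
import Pool.Agent.H402R2.T4bA

set_option autoImplicit false

/-! Project QT, task T5: bounds for the Gamma function on vertical lines. -/

namespace Pool.Agent.Y812.QT5

open Complex MeasureTheory Filter Topology

lemma norm_GammaSeq_eq (x y : ℝ) (n : ℕ) :
    ‖GammaSeq ((x : ℂ) + y * I) n‖ =
      ‖(n : ℂ) ^ ((x : ℂ) + y * I)‖ * (n.factorial : ℝ) /
        ∏ j ∈ Finset.range (n + 1), ‖(x : ℂ) + y * I + j‖ := by
  unfold GammaSeq
  rw [norm_div, norm_mul, norm_prod]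
  simp

/-- `‖Γ(x+iy)‖ / Γ(x)` increases with `x > 0` -/
lemma gamma_mono {x x' : ℝ} (y : ℝ) (hx : 0 < x) (h : x ≤ x') :
    ‖Gamma ((x : ℂ) + y * I)‖ * Real.Gamma x' ≤ ‖Gamma ((x' : ℂ) + y * I)‖ * Real.Gamma x := by
  have hx' : 0 < x' := hx.trans_le h
  have t1 := (GammaSeq_tendsto_Gamma ((x : ℂ) + y * I)).norm
  have t2 := (GammaSeq_tendsto_Gamma ((x' : ℂ) + y * I)).norm
  have t3 := (GammaSeq_tendsto_Gamma ((x : ℂ) + (0 : ℝ) * I)).norm
  have t4 := (GammaSeq_tendsto_Gamma ((x' : ℂ) + (0 : ℝ) * I)).norm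
  have e3 : ‖Gamma ((x : ℂ) + (0 : ℝ) * I)‖ = Real.Gamma x := by
    rw [ofReal_zero, zero_mul, add_zero, Complex.Gamma_ofReal, Complex.norm_real,
      Real.norm_of_nonneg (Real.Gamma_pos_of_pos hx).le]
  have e4 : ‖Gamma ((x' : ℂ) + (0 : ℝ) * I)‖ = Real.Gamma x' := by
    rw [ofReal_zero, zero_mul, add_zero, Complex.Gamma_ofReal, Complex.norm_real,
      Real.norm_of_nonneg (Real.Gamma_pos_of_pos hx').le]
  rw [e3] at t3
  rw [e4] at t4
  refine le_of_tendsto_of_tendsto (t1.mul t4) (t2.mul t3) ?_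
  filter_upwards [eventually_gt_atTop 0] with n hn
  rw [norm_GammaSeq_eq, norm_GammaSeq_eq, norm_GammaSeq_eq, norm_GammaSeq_eq]
  have hn0 : (0 : ℝ) < n := by exact_mod_cast hn
  have hpw : ∀ a b : ℝ, ‖(n : ℂ) ^ ((a : ℂ) + b * I)‖ = (n : ℝ) ^ a := by
    intro a b
    have : (n : ℂ) = ((n : ℝ) : ℂ) := by norm_cast
    rw [this, norm_cpow_eq_rpow_re_of_pos hn0]
    simp
  simp only [hpw]
  have hp : ∀ a b : ℝ, 0 < a → 0 < ∏ j ∈ Finset.range (n + 1), ‖(a : ℂ) + b * I + j‖ := by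
    intro a b ha
    apply Finset.prod_pos
    intro j _
    apply norm_pos_iff.2
    intro h0
    have := congrArg Complex.re h0
    simp at this
    have h2 : (0:ℝ) ≤ j := Nat.cast_nonneg j
    linarith
  have key : (∏ j ∈ Finset.range (n + 1), ‖(x' : ℂ) + y * I + j‖) *
      (∏ j ∈ Finset.range (n + 1), ‖(x : ℂ) + (0 : ℝ) * I + j‖) ≤
      (∏ j ∈ Finset.range (n + 1), ‖(x : ℂ) + y * I + j‖) *
      (∏ j ∈ Finset.range (n + 1), ‖(x' : ℂ) + (0 : ℝ) * I + j‖) := by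
    rw [← Finset.prod_mul_distrib, ← Finset.prod_mul_distrib]
    apply Finset.prod_le_prod
    · intro j _; positivity
    · intro j _
      rw [← norm_mul, ← norm_mul]
      rw [← Real.sqrt_sq (norm_nonneg (((x' : ℂ) + y * I + j) * _)),
        ← Real.sqrt_sq (norm_nonneg (((x : ℂ) + y * I + j) * _))]
      apply Real.sqrt_le_sqrt
      rw [← Complex.normSq_eq_norm_sq, ← Complex.normSq_eq_norm_sq]
      rw [map_mul, map_mul]
      simp only [Complex.normSq_apply, add_re, add_im, ofReal_re, ofReal_im, mul_re, mul_im, I_re, I_im,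
        natCast_re, natCast_im]
      have hj : (0:ℝ) ≤ j := Nat.cast_nonneg j
      have h1 : 0 < x + j := by positivity
      have h2 : x + j ≤ x' + j := by linarith
      ring_nf
      nlinarith [mul_nonneg (sq_nonneg y) (mul_nonneg (sub_nonneg.2 h) (by linarith : 0 ≤ x + x' + 2 * j))]
  have h1 := hp x y hx
  have h2 := hp x' y hx'
  have h3 := hp x 0 hx
  have h4 := hp x' 0 hx'
  have e1 : (n : ℝ) ^ x * (n.factorial : ℝ) / (∏ j ∈ Finset.range (n + 1), ‖(x : ℂ) + y * I + j‖) *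
      ((n : ℝ) ^ x' * (n.factorial : ℝ) / ∏ j ∈ Finset.range (n + 1), ‖(x' : ℂ) + (0 : ℝ) * I + j‖) =
      ((n : ℝ) ^ x * (n : ℝ) ^ x' * (n.factorial : ℝ) ^ 2) /
        ((∏ j ∈ Finset.range (n + 1), ‖(x : ℂ) + y * I + j‖) *
          (∏ j ∈ Finset.range (n + 1), ‖(x' : ℂ) + (0 : ℝ) * I + j‖)) := by
    field_simp
  have e2 : (n : ℝ) ^ x' * (n.factorial : ℝ) / (∏ j ∈ Finset.range (n + 1), ‖(x' : ℂ) + y * I + j‖) *
      ((n : ℝ) ^ x * (n.factorial : ℝ) / ∏ j ∈ Finset.range (n + 1), ‖(x : ℂ) + (0 : ℝ) * I + j‖) =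
      ((n : ℝ) ^ x * (n : ℝ) ^ x' * (n.factorial : ℝ) ^ 2) /
        ((∏ j ∈ Finset.range (n + 1), ‖(x' : ℂ) + y * I + j‖) *
          (∏ j ∈ Finset.range (n + 1), ‖(x : ℂ) + (0 : ℝ) * I + j‖)) := by
    field_simp
  rw [e1, e2]
  exact div_le_div_of_nonneg_left (by positivity) (mul_pos h2 h3) key

lemma gamma_half (y : ℝ) : ‖Gamma ((1 / 2 : ℝ) + y * I)‖ ^ 2 = Real.pi / Real.cosh (Real.pi * y) := by
  have h := Complex.Gamma_mul_Gamma_one_sub (((1 / 2 : ℝ) : ℂ) + y * I)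
  have e1 : (1 : ℂ) - (((1 / 2 : ℝ) : ℂ) + y * I) = (starRingEnd ℂ) (((1 / 2 : ℝ) : ℂ) + y * I) := by
    apply Complex.ext
    · simp; norm_num
    · simp
  rw [e1, Complex.Gamma_conj, Complex.mul_conj, Complex.normSq_eq_norm_sq] at h
  have e2 : Complex.sin (Real.pi * (((1 / 2 : ℝ) : ℂ) + y * I)) = ((Real.cosh (Real.pi * y) : ℝ) : ℂ) := by
    have : (Real.pi : ℂ) * (((1 / 2 : ℝ) : ℂ) + y * I) = (Real.pi * y : ℝ) * I + Real.pi / 2 := by
      push_cast; ring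
    rw [this, Complex.sin_add_pi_div_two, Complex.cos_mul_I, Complex.ofReal_cosh]
  rw [e2, ← Complex.ofReal_div] at h
  exact_mod_cast h

lemma gamma_half_le (y : ℝ) : ‖Gamma ((1 / 2 : ℝ) + y * I)‖ ^ 2 ≤ 2 * Real.pi * Real.exp (-(Real.pi * |y|)) := by
  rw [gamma_half]
  have hc : Real.exp (Real.pi * |y|) / 2 ≤ Real.cosh (Real.pi * y) := by
    rw [← Real.cosh_abs, abs_mul, abs_of_pos Real.pi_pos, Real.cosh_eq]
    have := Real.exp_pos (-(Real.pi * |y|))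
    linarith
  have hp := Real.exp_pos (Real.pi * |y|)
  rw [div_le_iff₀ (Real.cosh_pos _)]
  calc Real.pi = 2 * Real.pi * Real.exp (-(Real.pi * |y|)) * (Real.exp (Real.pi * |y|) / 2) := by
        rw [Real.exp_neg]; field_simp
    _ ≤ _ := by gcongr

lemma gamma_shift (n : ℕ) : ∃ C : ℝ, 0 < C ∧ ∀ y : ℝ,
    ‖Gamma (((n : ℝ) + 1 / 2 : ℝ) + y * I)‖ ≤ C * (1 + |y|) ^ n * ‖Gamma ((1 / 2 : ℝ) + y * I)‖ := by
  induction n with
  | zero => exact ⟨1, one_pos, fun y => by simp⟩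
  | succ n ih =>
    obtain ⟨C, hC, h⟩ := ih
    refine ⟨C * (n + 1), by positivity, fun y => ?_⟩
    have e1 : ((((n + 1 : ℕ) : ℝ) + 1 / 2 : ℝ) : ℂ) + y * I = ((((n : ℝ) + 1 / 2 : ℝ) : ℂ) + y * I) + 1 := by
      push_cast; ring
    have hne : ((((n : ℝ) + 1 / 2 : ℝ) : ℂ) + y * I) ≠ 0 := by
      intro h0
      have := congrArg Complex.re h0
      simp only [add_re, ofReal_re, mul_re, ofReal_im, I_re, I_im, mul_zero, zero_mul, sub_zero, add_zero,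
        Complex.zero_re] at this
      have h2 : (0:ℝ) ≤ n := Nat.cast_nonneg n
      linarith
    rw [e1, Complex.Gamma_add_one _ hne, norm_mul]
    have h3 : ‖((((n : ℝ) + 1 / 2 : ℝ) : ℂ) + y * I)‖ ≤ (n + 1) * (1 + |y|) := by
      refine (norm_add_le _ _).trans ?_
      rw [norm_mul, norm_I, mul_one, Complex.norm_real, Complex.norm_real, Real.norm_eq_abs, Real.norm_eq_abs]
      have h2 : (0:ℝ) ≤ n := Nat.cast_nonneg n
      rw [abs_of_pos (by positivity)]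
      nlinarith [abs_nonneg y]
    calc _ ≤ ((n + 1) * (1 + |y|)) * (C * (1 + |y|) ^ n * ‖Gamma ((1 / 2 : ℝ) + y * I)‖) :=
          mul_le_mul h3 (h y) (norm_nonneg _) (by positivity)
      _ = _ := by push_cast; ring

/-- the Gamma function on vertical lines in `1 ≤ Re s ≤ 11` -/
theorem gamma_bound : ∃ C : ℝ, 0 < C ∧ ∀ x y : ℝ, 1 ≤ x → x ≤ 11 →
    ‖Gamma ((x : ℂ) + y * I)‖ ^ 2 ≤ C * (1 + |y|) ^ 22 * Real.exp (-(Real.pi * |y|)) := by
  obtain ⟨C, hC, h⟩ := gamma_shift 11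
  have hconv := Real.convexOn_Gamma
  set M := max (Real.Gamma 1) (Real.Gamma (23 / 2)) with hM
  have hMpos : 0 < M := lt_max_of_lt_left (Real.Gamma_pos_of_pos one_pos)
  set g := Real.Gamma (23 / 2) with hg
  have hgpos : 0 < g := Real.Gamma_pos_of_pos (by norm_num)
  refine ⟨(M * C / g) ^ 2 * (2 * Real.pi), by positivity, fun x y h1 h2 => ?_⟩
  have hmax : Real.Gamma x ≤ M :=
    hconv.le_max_of_mem_Icc (Set.mem_Ioi.2 one_pos) (Set.mem_Ioi.2 (by norm_num : (0:ℝ) < 23 / 2))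
      ⟨h1, by linarith⟩
  have hm := gamma_mono (x := x) (x' := 23 / 2) y (by linarith) (by linarith)
  have hs := h y
  have e : (((11 : ℕ) : ℝ) + 1 / 2 : ℝ) = 23 / 2 := by norm_num
  rw [e] at hs
  have h3 : ‖Gamma ((x : ℂ) + y * I)‖ ≤ M * C / g * ((1 + |y|) ^ 11 * ‖Gamma ((1 / 2 : ℝ) + y * I)‖) := by
    rw [div_mul_eq_mul_div, le_div_iff₀ hgpos]
    calc _ ≤ ‖Gamma (((23 / 2 : ℝ) : ℂ) + y * I)‖ * Real.Gamma x := hm
      _ ≤ (C * (1 + |y|) ^ 11 * ‖Gamma ((1 / 2 : ℝ) + y * I)‖) * M :=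
          mul_le_mul hs hmax (Real.Gamma_pos_of_pos (by linarith)).le (by positivity)
      _ = _ := by ring
  calc ‖Gamma ((x : ℂ) + y * I)‖ ^ 2 ≤
        (M * C / g * ((1 + |y|) ^ 11 * ‖Gamma ((1 / 2 : ℝ) + y * I)‖)) ^ 2 :=
          pow_le_pow_left₀ (norm_nonneg _) h3 2
    _ = (M * C / g) ^ 2 * (1 + |y|) ^ 22 * ‖Gamma ((1 / 2 : ℝ) + y * I)‖ ^ 2 := by ring
    _ ≤ (M * C / g) ^ 2 * (1 + |y|) ^ 22 * (2 * Real.pi * Real.exp (-(Real.pi * |y|))) := by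
        gcongr; exact gamma_half_le y
    _ = _ := by ring

end Pool.Agent.Y812.QT5
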