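import Mathlib
import Pool.Agent.H402R2.T4bA
import Pool.Agent.TH270.MS.PW
import Pool.Agent.Y812.QT5G

set_option autoImplicit false

/-! Project QT, task T5: Mellin transforms of exponential sums along a ray. -/

namespace Pool.Agent.Y812.QT5

open Complex MeasureTheory Filter Topology Set
open scoped ENNReal

lemma exp_deriv : ∀ x ∈ (univ : Set ℝ),
    HasDerivWithinAt (fun x : ℝ => Real.exp (-x)) (-Real.exp (-x)) univ x := by
  intro x _
  have h := (Real.hasDerivAt_exp (-x)).comp x (hasDerivAt_neg x)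
  rw [mul_neg_one] at h
  exact h.hasDerivWithinAt

lemma exp_inj : InjOn (fun x : ℝ => Real.exp (-x)) univ := by
  intro x _ y _ h
  simpa using Real.exp_injective h

lemma exp_img : (fun x : ℝ => Real.exp (-x)) '' univ = Ioi 0 := by
  ext y
  simp only [mem_image, mem_univ, true_and, mem_Ioi]
  constructor
  · rintro ⟨x, rfl⟩; exact Real.exp_pos _
  · intro hy; exact ⟨-Real.log y, by rw [neg_neg, Real.exp_log hy]⟩

lemma cpow_exp_neg (x : ℝ) (s : ℂ) : ((Real.exp (-x) : ℝ) : ℂ) ^ s = cexp (-(s * x)) := by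
  have h : ((Real.exp (-x) : ℝ) : ℂ) ≠ 0 := by exact_mod_cast (Real.exp_pos _).ne'
  rw [cpow_def_of_ne_zero h, ← Complex.ofReal_log (Real.exp_pos _).le, Real.log_exp]
  congr 1
  push_cast
  ring

lemma lap {r s : ℂ} (hr : 0 < r.re) (hs : 0 < s.re) :
    Integrable (fun x : ℝ => cexp (-(r * Real.exp (-x))) * cexp (-(s * x))) ∧
    ∫ x : ℝ, cexp (-(r * Real.exp (-x))) * cexp (-(s * x)) = (1 / r) ^ s * Gamma s := by
  have e : ∀ x : ℝ, |(-Real.exp (-x))| • ((((Real.exp (-x) : ℝ) : ℂ)) ^ (s - 1) *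
      cexp (-(r * ((Real.exp (-x) : ℝ) : ℂ)))) = cexp (-(r * Real.exp (-x))) * cexp (-(s * x)) := by
    intro x
    rw [abs_neg, abs_of_pos (Real.exp_pos _), cpow_exp_neg, Complex.real_smul]
    have : ((Real.exp (-x) : ℝ) : ℂ) = cexp (-x) := by push_cast; rfl
    rw [show ((Real.exp (-x) : ℝ) : ℂ) * (cexp (-((s - 1) * x)) * cexp (-(r * ((Real.exp (-x) : ℝ) : ℂ)))) =
      cexp (-(r * ((Real.exp (-x) : ℝ) : ℂ))) * (((Real.exp (-x) : ℝ) : ℂ) * cexp (-((s - 1) * x))) by ring]
    rw [this, ← Complex.exp_add]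
    congr 2
    ring
  constructor
  · have h1 : IntegrableOn (fun t : ℝ => (t : ℂ) ^ (s - 1) * cexp (-(r * t))) (Ioi 0) := by
      refine Integrable.mono' (Pool.Agent.H402R2.T4b.int_rpow_exp (s := s.re - 1) (b := r.re)
        (by linarith) hr) (Pool.Agent.H402R2.T4b.cpow_exp_meas s r) ?_
      refine (ae_restrict_iff' measurableSet_Ioi).2 (Eventually.of_forall fun t ht => ?_)
      have ht0 : (0:ℝ) < t := ht
      rw [norm_mul, Complex.norm_cpow_eq_rpow_re_of_pos ht0, Complex.norm_exp]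
      simp
    rw [← exp_img, integrableOn_image_iff_integrableOn_abs_deriv_smul MeasurableSet.univ exp_deriv
      exp_inj, integrableOn_univ] at h1
    exact h1.congr (Eventually.of_forall e)
  · rw [← Pool.Agent.H402R2.T4b.rot_formula hs hr, ← exp_img,
      integral_image_eq_integral_abs_deriv_smul MeasurableSet.univ exp_deriv exp_inj,
      setIntegral_univ]
    exact integral_congr_ae (Eventually.of_forall fun x => (e x).symm)

lemma norm_lap (r s : ℂ) (x : ℝ) : ‖cexp (-(r * Real.exp (-x))) * cexp (-(s * x))‖ =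
    Real.exp (-(r.re * Real.exp (-x))) * Real.exp (-(s.re * x)) := by
  rw [norm_mul, Complex.norm_exp, Complex.norm_exp]
  congr 2
  · rw [neg_re, re_mul_ofReal]
  · rw [neg_re, re_mul_ofReal]

lemma int_norm_lap {r s : ℂ} (hr : 0 < r.re) (hs : 0 < s.re) :
    ∫ x : ℝ, ‖cexp (-(r * Real.exp (-x))) * cexp (-(s * x))‖ = (1 / r.re) ^ s.re * Real.Gamma s.re := by
  have h := (lap (r := (r.re : ℂ)) (s := (s.re : ℂ)) (by simpa using hr) (by simpa using hs)).2
  have e : ∀ x : ℝ, cexp (-((r.re : ℂ) * Real.exp (-x))) * cexp (-((s.re : ℂ) * x)) =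
      ((‖cexp (-(r * Real.exp (-x))) * cexp (-(s * x))‖ : ℝ) : ℂ) := by
    intro x
    rw [norm_lap]
    push_cast
    rfl
  rw [integral_congr_ae (Eventually.of_forall e), integral_complex_ofReal, Complex.Gamma_ofReal] at h
  have e2 : (1 / (r.re : ℂ)) ^ (s.re : ℂ) = (((1 / r.re) ^ s.re : ℝ) : ℂ) := by
    rw [Complex.ofReal_cpow (by positivity)]
    push_cast
    rfl
  rw [e2] at h
  exact_mod_cast h

lemma mulc {a : ℝ} {z s : ℂ} (ha : 0 < a) (hz : z ≠ 0) : ((a : ℂ) * z) ^ s = (a : ℂ) ^ s * z ^ s := by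
  have ha' : (a : ℂ) ≠ 0 := by exact_mod_cast ha.ne'
  rw [cpow_def_of_ne_zero (mul_ne_zero ha' hz), log_ofReal_mul ha hz, ofReal_log ha.le, add_mul, exp_add,
    ← cpow_def_of_ne_zero ha', ← cpow_def_of_ne_zero hz]

/-- the exponential sum -/
noncomputable def es (c : ℕ → ℂ) (ω : ℂ) (u : ℝ) : ℂ := ∑' m : ℕ, c m * cexp (-(ω * m * u))

lemma es_summable {c : ℕ → ℂ} {ω : ℂ} {K : ℕ} (hω : 0 < ω.re) (hc : ∀ m, ‖c m‖ ≤ (m : ℝ) ^ K) {u : ℝ}
    (hu : 0 < u) : Summable (fun m : ℕ => ‖c m * cexp (-(ω * m * u))‖) := by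
  refine Summable.of_nonneg_of_le (fun _ => norm_nonneg _) (fun m => ?_)
    (Real.summable_pow_mul_exp_neg_nat_mul K (mul_pos hω hu))
  rw [norm_mul, Complex.norm_exp]
  have : (-(ω * m * u)).re = -(ω.re * u) * m := by
    rw [neg_re, re_mul_ofReal, ← Complex.ofReal_natCast, re_mul_ofReal]
    ring
  rw [this]
  exact mul_le_mul_of_nonneg_right (hc m) (Real.exp_pos _).le

lemma es_mellin {c : ℕ → ℂ} {ω : ℂ} {K : ℕ} (hω : 0 < ω.re) (hc0 : c 0 = 0)
    (hc : ∀ m, ‖c m‖ ≤ (m : ℝ) ^ K) {s : ℂ} (hs : 0 < s.re)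
    (hsum : Summable (fun m : ℕ => ‖c m‖ * (m : ℝ) ^ (-s.re))) :
    Integrable (fun x : ℝ => es c ω (Real.exp (-x)) * cexp (-(s * x))) ∧
    ∫ x : ℝ, es c ω (Real.exp (-x)) * cexp (-(s * x)) =
      Gamma s * (1 / ω) ^ s * ∑' m : ℕ, c m * (m : ℂ) ^ (-s) := by
  have hω0 : ω ≠ 0 := by rintro rfl; simp at hω
  set F : ℕ → ℝ → ℂ := fun m x => c m * (cexp (-(ω * m * Real.exp (-x))) * cexp (-(s * x))) with hF
  have hre : ∀ m : ℕ, m ≠ 0 → 0 < (ω * m).re := by
    intro m hm
    rw [← Complex.ofReal_natCast, re_mul_ofReal]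
    have : (0:ℝ) < m := by exact_mod_cast Nat.pos_of_ne_zero hm
    positivity
  have hFint : ∀ m, Integrable (F m) := by
    intro m
    by_cases hm : m = 0
    · simp [hF, hm, hc0]
    · exact (lap (hre m hm) hs).1.const_mul _
  have hFn : ∀ m, ∫ x, ‖F m x‖ = (1 / ω.re) ^ s.re * Real.Gamma s.re * (‖c m‖ * (m : ℝ) ^ (-s.re)) := by
    intro m
    by_cases hm : m = 0
    · simp [hF, hm, hc0]
    · have hm0 : (0:ℝ) < m := by exact_mod_cast Nat.pos_of_ne_zero hm
      simp only [hF, norm_mul (c m)]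
      rw [integral_const_mul, int_norm_lap (hre m hm) hs]
      have e1 : (ω * m).re = ω.re * m := by rw [← Complex.ofReal_natCast, re_mul_ofReal]
      rw [e1, one_div, mul_inv, Real.mul_rpow (by positivity) (by positivity), Real.rpow_neg hm0.le,
        Real.inv_rpow hm0.le, one_div]
      ring
  have hFs : Summable (fun m => ∫ x, ‖F m x‖) := by
    simp only [hFn]
    exact hsum.mul_left _
  have hFI : ∀ m, ∫ x, F m x = Gamma s * (1 / ω) ^ s * (c m * (m : ℂ) ^ (-s)) := by
    intro m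
    by_cases hm : m = 0
    · simp [hF, hm, hc0]
    · have hm0 : (0:ℝ) < m := by exact_mod_cast Nat.pos_of_ne_zero hm
      simp only [hF]
      rw [integral_const_mul, (lap (hre m hm) hs).2]
      have e1 : (1 / (ω * m)) ^ s = (1 / ω) ^ s * (m : ℂ) ^ (-s) := by
        have : 1 / (ω * m) = ((m : ℝ)⁻¹ : ℝ) * (1 / ω) := by
          push_cast
          field_simp
        rw [this, mulc (by positivity) (one_div_ne_zero hω0), Complex.ofReal_inv, Complex.cpow_neg,
          Complex.inv_cpow _ _ (by rw [Complex.ofReal_natCast, Complex.natCast_arg]; exact Real.pi_pos.ne)]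
        rw [Complex.ofReal_natCast]
        ring
      rw [e1]
      ring
  have hpt : ∀ x : ℝ, HasSum (fun m => F m x) (es c ω (Real.exp (-x)) * cexp (-(s * x))) := by
    intro x
    have h1 : Summable (fun m : ℕ => c m * cexp (-(ω * m * (Real.exp (-x) : ℝ)))) :=
      (es_summable hω hc (Real.exp_pos (-x))).of_norm
    have h2 := h1.hasSum.mul_right (cexp (-(s * x)))
    refine h2.congr_fun ?_ |> fun h => h
    intro m
    simp only [hF]
    ring
  have hts : ∀ x : ℝ, ∑' m, F m x = es c ω (Real.exp (-x)) * cexp (-(s * x)) := fun x => (hpt x).tsum_eq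
  have hmain := hasSum_integral_of_summable_integral_norm hFint hFs
  simp only [hts, hFI] at hmain
  refine ⟨⟨?_, ?_⟩, ?_⟩
  · refine aestronglyMeasurable_of_tendsto_ae atTop (f := fun N x => ∑ m ∈ Finset.range N, F m x) ?_ ?_
    · intro N
      exact (integrable_finsetSum _ (fun m _ => hFint m)).aestronglyMeasurable
    · exact Eventually.of_forall fun x => (hpt x).tendsto_sum_nat
  · rw [HasFiniteIntegral]
    calc ∫⁻ x, ‖es c ω (Real.exp (-x)) * cexp (-(s * x))‖ₑ ≤ ∫⁻ x, ∑' m, ‖F m x‖ₑ := by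
          apply lintegral_mono
          intro x
          simp only
          rw [← hts x]
          exact enorm_tsum_le_tsum_enorm
      _ = ∑' m, ∫⁻ x, ‖F m x‖ₑ := lintegral_tsum fun m => (hFint m).aestronglyMeasurable.enorm
      _ = ∑' m, ENNReal.ofReal (∫ x, ‖F m x‖) := by
          congr 1
          ext m
          rw [ofReal_integral_norm_eq_lintegral_enorm (hFint m)]
      _ < ⊤ := by
          rw [← ENNReal.ofReal_tsum_of_nonneg (fun m => integral_nonneg fun _ => norm_nonneg _) hFs]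
          exact ENNReal.ofReal_lt_top
  · rw [← hmain.tsum_eq, tsum_mul_left]

end Pool.Agent.Y812.QT5
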