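import Mathlib
import Pool.Agent.Y19.QT.Defs
import Pool.Agent.Y812.QT5B

set_option autoImplicit false

/-! Project QT, task T5: Mellin-Plancherel bound for one exponential sum. -/

namespace Pool.Agent.Y812.QT5

open Complex MeasureTheory Filter Topology Set
open scoped ENNReal
open Pool.Agent.Y19.QT (th0)

lemma th0_pos : 0 < th0 := by unfold Pool.Agent.Y19.QT.th0; positivity

lemma om_re {θ : ℝ} {b : ℕ} (hθ : |θ| ≤ th0) (hb : 0 < b) :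
    0 < ((2 * Real.pi * b : ℝ) * cexp (θ * I)).re := by
  have hb0 : (0:ℝ) < b := by exact_mod_cast hb
  rw [Complex.re_ofReal_mul, Complex.exp_ofReal_mul_I_re]
  have hpi := Real.pi_pos
  have h1 := abs_le.1 hθ
  unfold Pool.Agent.Y19.QT.th0 at h1
  have : 0 < Real.cos θ := Real.cos_pos_of_mem_Ioo ⟨by linarith, by linarith⟩
  positivity

lemma pw {θ : ℝ} {b : ℕ} (hθ : |θ| ≤ th0) (hb : 0 < b) (s : ℂ) :
    ‖(1 / ((2 * Real.pi * b : ℝ) * cexp (θ * I))) ^ s‖ =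
      (1 / (2 * Real.pi * b)) ^ s.re * Real.exp (θ * s.im) := by
  have hb0 : (0:ℝ) < b := by exact_mod_cast hb
  have hpi := Real.pi_pos
  have h1 := abs_le.1 hθ
  unfold Pool.Agent.Y19.QT.th0 at h1
  have e1 : 1 / (((2 * Real.pi * b : ℝ) : ℂ) * cexp (θ * I)) =
      ((1 / (2 * Real.pi * b) : ℝ) : ℂ) * cexp (-(θ * I)) := by
    rw [Complex.exp_neg]
    push_cast
    have := Complex.exp_ne_zero (θ * I)
    have h2 : (b : ℂ) ≠ 0 := by exact_mod_cast hb.ne'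
    have h3 : (Real.pi : ℂ) ≠ 0 := by exact_mod_cast hpi.ne'
    field_simp
  rw [e1, mulc (by positivity) (Complex.exp_ne_zero _), norm_mul,
    norm_cpow_eq_rpow_re_of_pos (by positivity)]
  congr 1
  rw [cpow_def_of_ne_zero (Complex.exp_ne_zero _), Complex.log_exp (by simp; linarith) (by simp; linarith),
    Complex.norm_exp]
  congr 1
  simp

/-- the coefficients -/
noncomputable def co (a : ℕ → ℝ) (c3 τ : ℝ) (m : ℕ) : ℂ := (a m : ℂ) * (m : ℂ) ^ ((c3 : ℂ) + τ * I)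

lemma co_norm (a : ℕ → ℝ) (c3 τ : ℝ) (ha0 : a 0 = 0) (ha : ∀ n, |a n| ≤ n) (m : ℕ) :
    ‖co a c3 τ m‖ ≤ (m : ℝ) * (m : ℝ) ^ c3 := by
  unfold co
  by_cases hm : m = 0
  · simp [hm, ha0]
  · have hm0 : (0:ℝ) < m := by exact_mod_cast Nat.pos_of_ne_zero hm
    rw [norm_mul, Complex.norm_real, ← Complex.ofReal_natCast, norm_cpow_eq_rpow_re_of_pos hm0]
    simp only [add_re, ofReal_re, mul_re, I_re, mul_zero, ofReal_im, I_im, mul_one, sub_self, add_zero]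
    exact mul_le_mul_of_nonneg_right (ha m) (by positivity)

lemma co_norm' (a : ℕ → ℝ) (c3 τ : ℝ) (h2 : c3 ≤ 10) (ha0 : a 0 = 0) (ha : ∀ n, |a n| ≤ n)
    (m : ℕ) : ‖co a c3 τ m‖ ≤ (m : ℝ) ^ 11 := by
  by_cases hm : m = 0
  · simp [hm, co, ha0]
  · have hm1 : (1:ℝ) ≤ m := by exact_mod_cast Nat.pos_of_ne_zero hm
    refine (co_norm a c3 τ ha0 ha m).trans ?_
    have : (m : ℝ) ^ c3 ≤ (m : ℝ) ^ (10 : ℝ) := Real.rpow_le_rpow_of_exponent_le hm1 h2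
    calc (m : ℝ) * (m : ℝ) ^ c3 ≤ (m : ℝ) * (m : ℝ) ^ (10 : ℝ) := by gcongr
      _ = (m : ℝ) ^ 11 := by
          rw [show ((10 : ℝ)) = ((10 : ℕ) : ℝ) by norm_num, Real.rpow_natCast]; ring

lemma co_sum (a : ℕ → ℝ) (c3 τ : ℝ) (ha0 : a 0 = 0) (ha : ∀ n, |a n| ≤ n) {x : ℝ}
    (hx : c3 + 2 < x) : Summable (fun m : ℕ => ‖co a c3 τ m‖ * (m : ℝ) ^ (-x)) := by
  refine Summable.of_nonneg_of_le (fun m => by positivity) (fun m => ?_)
    ((Real.summable_nat_rpow (p := 1 + c3 - x)).2 (by linarith))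
  by_cases hm : m = 0
  · simp only [hm, co, ha0]
    simp only [ofReal_zero, zero_mul, norm_zero]
    positivity
  · have hm0 : (0:ℝ) < m := by exact_mod_cast Nat.pos_of_ne_zero hm
    calc ‖co a c3 τ m‖ * (m : ℝ) ^ (-x) ≤ ((m : ℝ) * (m : ℝ) ^ c3) * (m : ℝ) ^ (-x) :=
          mul_le_mul_of_nonneg_right (co_norm a c3 τ ha0 ha m) (by positivity)
      _ = _ := by
          rw [show 1 + c3 - x = 1 + c3 + (-x) by ring, Real.rpow_add hm0, Real.rpow_add hm0, Real.rpow_one]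

/-- the weight -/
noncomputable def wt (y : ℝ) : ℝ := (1 + |y|) ^ 24 * Real.exp (-(Real.pi / 8 * |y|))

lemma wt_shift (y τ : ℝ) : (1 + |y + τ|) ^ 22 * Real.exp (-(Real.pi / 8 * |y + τ|)) ≤
    ((1 + |τ|) ^ 22 * Real.exp (Real.pi / 8 * |τ|)) * wt y := by
  have h1 : (1 + |y + τ|) ≤ (1 + |y|) * (1 + |τ|) := by
    have := abs_add_le y τ
    nlinarith [abs_nonneg y, abs_nonneg τ]
  have h2 : (1 + |y + τ|) ^ 22 ≤ (1 + |y|) ^ 22 * (1 + |τ|) ^ 22 := by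
    rw [← mul_pow]
    exact pow_le_pow_left₀ (by positivity) h1 22
  have h3 : (1 + |y|) ^ 22 ≤ (1 + |y|) ^ 24 :=
    pow_le_pow_right₀ (by linarith [abs_nonneg y]) (by norm_num)
  have h4 : Real.exp (-(Real.pi / 8 * |y + τ|)) ≤
      Real.exp (Real.pi / 8 * |τ|) * Real.exp (-(Real.pi / 8 * |y|)) := by
    rw [← Real.exp_add]
    apply Real.exp_le_exp.2
    have h5 : |y| ≤ |y + τ| + |τ| := by
      have := abs_sub (y + τ) τ
      simpa using this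
    have h6 := mul_le_mul_of_nonneg_left h5 (by positivity : (0:ℝ) ≤ Real.pi / 8)
    rw [mul_add] at h6
    linarith
  unfold wt
  calc _ ≤ ((1 + |y|) ^ 24 * (1 + |τ|) ^ 22) *
        (Real.exp (Real.pi / 8 * |τ|) * Real.exp (-(Real.pi / 8 * |y|))) := by
        apply mul_le_mul _ h4 (Real.exp_pos _).le (by positivity)
        exact h2.trans (mul_le_mul_of_nonneg_right h3 (by positivity))
    _ = _ := by ring

/-- the analytic continuation of the Mellin transform -/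
noncomputable def HH (L : ℂ → ℂ) (ω : ℂ) (c3 τ : ℝ) (s : ℂ) : ℂ :=
  Gamma (s + (c3 + 1 / 2 : ℝ)) * (1 / ω) ^ (s + (c3 + 1 / 2 : ℝ)) *
    L (s + (c3 + 1 / 2 : ℝ) - ((c3 : ℂ) + τ * I))

lemma HH_line {C : ℝ} (hC : 0 < C)
    (hG : ∀ x y : ℝ, 1 ≤ x → x ≤ 11 →
      ‖Gamma ((x : ℂ) + y * I)‖ ^ 2 ≤ C * (1 + |y|) ^ 22 * Real.exp (-(Real.pi * |y|)))
    {c3 σ θ τ : ℝ} {b : ℕ} (h1 : 1 ≤ c3) (h2 : c3 ≤ 10) (h3 : 1 / 2 < σ) (h4 : σ ≤ 1)
    (hθ : |θ| ≤ th0) (hb : 0 < b) (L : ℂ → ℂ) (t : ℝ) :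
    ‖HH L ((2 * Real.pi * b : ℝ) * cexp (θ * I)) c3 τ (((σ - 1 / 2 : ℝ) : ℂ) + t * I)‖ ^ 2 ≤
      C * (b : ℝ) ^ (-(2 * (c3 + σ))) * ((1 + |t|) ^ 22 * Real.exp (-(Real.pi / 8 * |t|))) *
        ‖L (σ + (t - τ : ℝ) * I)‖ ^ 2 := by
  have hb0 : (0:ℝ) < b := by exact_mod_cast hb
  have hpi := Real.pi_pos
  unfold HH
  have e1 : (((σ - 1 / 2 : ℝ) : ℂ) + t * I) + (c3 + 1 / 2 : ℝ) = ((c3 + σ : ℝ) : ℂ) + t * I := by
    push_cast; ring
  have e2 : ((c3 + σ : ℝ) : ℂ) + t * I - ((c3 : ℂ) + τ * I) = σ + (t - τ : ℝ) * I := by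
    push_cast; ring
  rw [e1, e2, norm_mul, norm_mul, mul_pow, mul_pow, pw hθ hb]
  have e3 : (((c3 + σ : ℝ) : ℂ) + t * I).re = c3 + σ := by simp
  have e4 : (((c3 + σ : ℝ) : ℂ) + t * I).im = t := by simp
  rw [e3, e4]
  have g1 := hG (c3 + σ) t (by linarith) (by linarith)
  have g2 : ((1 / (2 * Real.pi * b)) ^ (c3 + σ) * Real.exp (θ * t)) ^ 2 ≤
      (b : ℝ) ^ (-(2 * (c3 + σ))) * Real.exp (2 * th0 * |t|) := by
    rw [mul_pow, ← Real.exp_nat_mul, ← Real.rpow_natCast, ← Real.rpow_mul (by positivity)]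
    apply mul_le_mul
    · rw [show -(2 * (c3 + σ)) = -((c3 + σ) * (2 : ℕ)) by push_cast; ring, Real.rpow_neg hb0.le,
        ← Real.inv_rpow hb0.le, one_div]
      apply Real.rpow_le_rpow (by positivity)
      · apply inv_anti₀ hb0
        exact le_mul_of_one_le_left hb0.le (by linarith [Real.pi_gt_three])
      · push_cast; linarith
    · apply Real.exp_le_exp.2
      have : θ * t ≤ th0 * |t| := by
        calc θ * t ≤ |θ * t| := le_abs_self _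
          _ = |θ| * |t| := abs_mul _ _
          _ ≤ _ := by gcongr
      push_cast
      linarith
    · positivity
    · positivity
  have g3 : Real.exp (-(Real.pi * |t|)) * Real.exp (2 * th0 * |t|) = Real.exp (-(Real.pi / 8 * |t|)) := by
    rw [← Real.exp_add]
    congr 1
    unfold Pool.Agent.Y19.QT.th0
    ring
  calc ‖Gamma (((c3 + σ : ℝ) : ℂ) + t * I)‖ ^ 2 * ((1 / (2 * Real.pi * b)) ^ (c3 + σ) * Real.exp (θ * t)) ^ 2 *
        ‖L (σ + (t - τ : ℝ) * I)‖ ^ 2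
      ≤ (C * (1 + |t|) ^ 22 * Real.exp (-(Real.pi * |t|))) *
        ((b : ℝ) ^ (-(2 * (c3 + σ))) * Real.exp (2 * th0 * |t|)) * ‖L (σ + (t - τ : ℝ) * I)‖ ^ 2 := by
        gcongr
    _ = C * (b : ℝ) ^ (-(2 * (c3 + σ))) * ((1 + |t|) ^ 22 *
          (Real.exp (-(Real.pi * |t|)) * Real.exp (2 * th0 * |t|))) *
          ‖L (σ + (t - τ : ℝ) * I)‖ ^ 2 := by ring
    _ = _ := by rw [g3]

lemma HH_int {C : ℝ} (hC : 0 < C)
    (hG : ∀ x y : ℝ, 1 ≤ x → x ≤ 11 →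
      ‖Gamma ((x : ℂ) + y * I)‖ ^ 2 ≤ C * (1 + |y|) ^ 22 * Real.exp (-(Real.pi * |y|)))
    {c3 σ θ τ : ℝ} {b : ℕ} (h1 : 1 ≤ c3) (h2 : c3 ≤ 10) (h3 : 1 / 2 < σ) (h4 : σ ≤ 1)
    (hθ : |θ| ≤ th0) (hb : 0 < b) (L : ℂ → ℂ) :
    ∫⁻ t : ℝ, ‖HH L ((2 * Real.pi * b : ℝ) * cexp (θ * I)) c3 τ (((σ - 1 / 2 : ℝ) : ℂ) + t * I)‖ₑ ^ 2 ≤
      ENNReal.ofReal (C * (b : ℝ) ^ (-(2 * (c3 + σ))) * ((1 + |τ|) ^ 22 * Real.exp (Real.pi / 8 * |τ|))) *
        ∫⁻ y : ℝ, ‖L (σ + y * I)‖ₑ ^ 2 * ENNReal.ofReal (wt y) := by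
  set K := C * (b : ℝ) ^ (-(2 * (c3 + σ))) with hK
  have hK0 : 0 ≤ K := by positivity
  calc _ ≤ ∫⁻ t : ℝ, ENNReal.ofReal (K * ((1 + |t|) ^ 22 * Real.exp (-(Real.pi / 8 * |t|)))) *
        ‖L (σ + (t - τ : ℝ) * I)‖ₑ ^ 2 := by
        apply lintegral_mono
        intro t
        simp only
        have h := HH_line hC hG (τ := τ) h1 h2 h3 h4 hθ hb L t
        rw [← ofReal_norm, ← ofReal_norm, ← ENNReal.ofReal_pow (norm_nonneg _),
          ← ENNReal.ofReal_pow (norm_nonneg _), ← ENNReal.ofReal_mul (by positivity)]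
        exact ENNReal.ofReal_le_ofReal h
    _ = ∫⁻ y : ℝ, ENNReal.ofReal (K * ((1 + |y + τ|) ^ 22 * Real.exp (-(Real.pi / 8 * |y + τ|)))) *
        ‖L (σ + y * I)‖ₑ ^ 2 := by
        rw [← lintegral_add_right_eq_self _ τ]
        refine lintegral_congr fun y => ?_
        rw [add_sub_cancel_right]
    _ ≤ ∫⁻ y : ℝ, ENNReal.ofReal (K * ((1 + |τ|) ^ 22 * Real.exp (Real.pi / 8 * |τ|))) *
        (‖L (σ + y * I)‖ₑ ^ 2 * ENNReal.ofReal (wt y)) := by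
        apply lintegral_mono
        intro y
        simp only
        have hw : 0 ≤ wt y := by unfold wt; positivity
        rw [mul_comm (‖L (σ + y * I)‖ₑ ^ 2) (ENNReal.ofReal (wt y)),
          ← mul_assoc (ENNReal.ofReal (K * ((1 + |τ|) ^ 22 * Real.exp (Real.pi / 8 * |τ|)))),
          ← ENNReal.ofReal_mul (by positivity)]
        refine mul_le_mul_left (ENNReal.ofReal_le_ofReal ?_) _
        rw [mul_assoc K]
        exact mul_le_mul_of_nonneg_left (wt_shift y τ) hK0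
    _ = _ := by rw [lintegral_const_mul' _ _ ENNReal.ofReal_ne_top]

end Pool.Agent.Y812.QT5
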