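import Mathlib
import Pool.Agent.Y812.QT5C

set_option autoImplicit false

/-! Project QT, task T5: Mellin-Plancherel bound for one exponential sum, part 2. -/

namespace Pool.Agent.Y812.QT5

open Complex MeasureTheory Filter Topology Set
open scoped ENNReal
open Pool.Agent.Y19.QT (th0)

/-- the kernel -/
noncomputable def kk (a : ℕ → ℝ) (ω : ℂ) (c3 τ : ℝ) (x : ℝ) : ℂ :=
  es (co a c3 τ) ω (Real.exp (-x)) * cexp (-(((c3 + 1 / 2 : ℝ) : ℂ) * x))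

lemma kk_mul (a : ℕ → ℝ) (ω : ℂ) (c3 τ : ℝ) (s : ℂ) (x : ℝ) :
    kk a ω c3 τ x * cexp (-(s * x)) =
      es (co a c3 τ) ω (Real.exp (-x)) * cexp (-((s + (c3 + 1 / 2 : ℝ)) * x)) := by
  unfold kk
  rw [mul_assoc, ← Complex.exp_add]
  congr 2
  ring

lemma kk_mellin {a : ℕ → ℝ} {L : ℂ → ℂ} {ω : ℂ} {c3 τ : ℝ} (hω : 0 < ω.re) (h1 : 1 ≤ c3)
    (h2 : c3 ≤ 10) (ha0 : a 0 = 0) (ha : ∀ n, |a n| ≤ n)
    (hL : ∀ s : ℂ, 2 < s.re → L s = ∑' n : ℕ, (a n : ℂ) * (n : ℂ) ^ (-s)) {s : ℂ} (hs : 3 / 2 < s.re) :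
    Integrable (fun x : ℝ => kk a ω c3 τ x * cexp (-(s * x))) ∧
      HH L ω c3 τ s = ∫ x : ℝ, kk a ω c3 τ x * cexp (-(s * x)) := by
  have e1 : (s + (c3 + 1 / 2 : ℝ)).re = s.re + (c3 + 1 / 2) := by simp
  have h := es_mellin (c := co a c3 τ) (ω := ω) (K := 11) (s := s + (c3 + 1 / 2 : ℝ)) hω (by simp [co, ha0])
    (co_norm' a c3 τ h2 ha0 ha) (by rw [e1]; linarith)
    (by rw [e1]; exact co_sum a c3 τ ha0 ha (by linarith))
  simp only [kk_mul]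
  refine ⟨h.1, ?_⟩
  rw [h.2, HH]
  congr 1
  rw [hL _ (by simp; linarith)]
  apply tsum_congr
  intro m
  by_cases hm : m = 0
  · simp [co, ha0, hm]
  · have hm' : (m : ℂ) ≠ 0 := by exact_mod_cast hm
    unfold co
    rw [mul_assoc, ← Complex.cpow_add _ _ hm']
    congr 2
    ring

lemma HH_diff {L : ℂ → ℂ} {ω : ℂ} {c3 τ : ℝ} (hω0 : ω ≠ 0) (h1 : 1 ≤ c3)
    (hL : DifferentiableOn ℂ L {s | 1 / 2 < s.re}) {s : ℂ} (hs : 0 < s.re) :
    DifferentiableAt ℂ (HH L ω c3 τ) s := by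
  unfold HH
  have d0 : DifferentiableAt ℂ (fun s : ℂ => s + ((c3 + 1 / 2 : ℝ) : ℂ)) s := by fun_prop
  refine DifferentiableAt.mul (DifferentiableAt.mul ?_ ?_) ?_
  · refine DifferentiableAt.comp (g := Gamma) s (Complex.differentiableAt_Gamma _ ?_) d0
    intro m hm
    have := congrArg Complex.re hm
    simp only [add_re, ofReal_re, neg_re, natCast_re] at this
    have h2 : (0:ℝ) ≤ m := Nat.cast_nonneg m
    linarith
  · exact d0.const_cpow (Or.inl (one_div_ne_zero hω0))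
  · have hU : IsOpen {s : ℂ | 1 / 2 < s.re} := isOpen_lt continuous_const Complex.continuous_re
    have hmem : s + ((c3 + 1 / 2 : ℝ) : ℂ) - ((c3 : ℂ) + τ * I) ∈ {s : ℂ | 1 / 2 < s.re} := by
      simp only [mem_ofPred_eq]
      simp
      linarith
    refine DifferentiableAt.comp (g := L) s (hL.differentiableAt (hU.mem_nhds hmem)) ?_
    exact d0.sub_const _

lemma HH_bdd {L : ℂ → ℂ} {c3 τ σ θ CL : ℝ} {b : ℕ} (h1 : 1 ≤ c3) (h2 : c3 ≤ 10) (h3 : 1 / 2 < σ)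
    (hθ : |θ| ≤ th0) (hb : 0 < b)
    (hg : ∀ s : ℂ, σ ≤ s.re → s.re ≤ 3 → ‖L s‖ ≤ CL * Real.exp (Real.pi / 32 * |s.im|)) :
    ∃ B : ℝ, ∀ s : ℂ, σ - 1 / 2 ≤ s.re → s.re ≤ 3 / 2 + 1 →
      ‖HH L ((2 * Real.pi * b : ℝ) * cexp (θ * I)) c3 τ s‖ ≤ B := by
  have hpi := Real.pi_pos
  have hb1 : (1:ℝ) ≤ b := by exact_mod_cast hb
  set θ' : ℝ := 31 * Real.pi / 64 with hθ'
  have hc0 : 0 < Real.cos θ' := Real.cos_pos_of_mem_Ioo ⟨by rw [hθ']; linarith, by rw [hθ']; linarith⟩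
  have hc1 : Real.cos θ' ≤ 1 := Real.cos_le_one _
  set M := max (Real.Gamma 1) (Real.Gamma 13) with hM
  have hMpos : 0 < M := lt_max_of_lt_left (Real.Gamma_pos_of_pos one_pos)
  set G0 := M / Real.cos θ' ^ (13 : ℝ) with hG0
  have hG0pos : 0 < G0 := by positivity
  refine ⟨G0 * (|CL| * Real.exp (Real.pi / 32 * |τ|)), fun s hs1 hs2 => ?_⟩
  set x := s.re + (c3 + 1 / 2) with hx
  set t := s.im with ht
  have hx1 : 1 ≤ x := by rw [hx]; linarith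
  have hx2 : x ≤ 13 := by rw [hx]; linarith
  have e1 : s + ((c3 + 1 / 2 : ℝ) : ℂ) = (x : ℂ) + t * I := by
    apply Complex.ext <;> simp [hx, ht]
  have gG : ‖Gamma ((x : ℂ) + t * I)‖ ≤ G0 * Real.exp (-(θ' * |t|)) := by
    have h := Pool.Agent.Helper242.KK.norm_Gamma_le_of_angle (σ := x) (v := t) (θ := θ') (by linarith)
      (by rw [hθ']; positivity) (by rw [hθ']; linarith)
    have hmax : Real.Gamma x ≤ M :=
      Real.convexOn_Gamma.le_max_of_mem_Icc (Set.mem_Ioi.2 one_pos)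
        (Set.mem_Ioi.2 (by norm_num : (0:ℝ) < 13)) ⟨hx1, hx2⟩
    have hcos : Real.cos θ' ^ (13 : ℝ) ≤ Real.cos θ' ^ x :=
      Real.rpow_le_rpow_of_exponent_ge hc0 hc1 hx2
    have hGx := Real.Gamma_pos_of_pos (by linarith : (0:ℝ) < x)
    calc _ ≤ Real.exp (-θ' * |t|) * Real.Gamma x / Real.cos θ' ^ x := h
      _ ≤ Real.exp (-θ' * |t|) * M / Real.cos θ' ^ (13 : ℝ) := by
          apply div_le_div₀ (by positivity) _ (by positivity) hcos
          exact mul_le_mul_of_nonneg_left hmax (Real.exp_pos _).le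
      _ = _ := by rw [hG0, neg_mul]; ring
  have gP : ‖(1 / ((2 * Real.pi * b : ℝ) * cexp (θ * I))) ^ ((x : ℂ) + t * I)‖ ≤
      Real.exp (th0 * |t|) := by
    rw [pw hθ hb]
    have e3 : ((x : ℂ) + t * I).re = x := by simp
    have e4 : ((x : ℂ) + t * I).im = t := by simp
    rw [e3, e4]
    have h5 : (1 / (2 * Real.pi * b)) ^ x ≤ 1 := by
      apply Real.rpow_le_one (by positivity)
      · rw [div_le_one (by positivity)]
        nlinarith [Real.pi_gt_three]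
      · linarith
    have h6 : Real.exp (θ * t) ≤ Real.exp (th0 * |t|) := by
      apply Real.exp_le_exp.2
      calc θ * t ≤ |θ * t| := le_abs_self _
        _ = |θ| * |t| := abs_mul _ _
        _ ≤ _ := by gcongr
    calc _ ≤ 1 * Real.exp (th0 * |t|) := mul_le_mul h5 h6 (Real.exp_pos _).le zero_le_one
      _ = _ := one_mul _
  have gL : ‖L ((x : ℂ) + t * I - ((c3 : ℂ) + τ * I))‖ ≤
      |CL| * Real.exp (Real.pi / 32 * |τ|) * Real.exp (Real.pi / 32 * |t|) := by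
    have e5 : ((x : ℂ) + t * I - ((c3 : ℂ) + τ * I)).re = s.re + 1 / 2 := by simp [hx]; ring
    have e6 : ((x : ℂ) + t * I - ((c3 : ℂ) + τ * I)).im = t - τ := by simp
    have h := hg ((x : ℂ) + t * I - ((c3 : ℂ) + τ * I)) (by rw [e5]; linarith) (by rw [e5]; linarith)
    rw [e6] at h
    refine h.trans ?_
    calc CL * Real.exp (Real.pi / 32 * |t - τ|) ≤ |CL| * Real.exp (Real.pi / 32 * |t - τ|) := by
          gcongr; exact le_abs_self _
      _ ≤ |CL| * (Real.exp (Real.pi / 32 * |τ|) * Real.exp (Real.pi / 32 * |t|)) := by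
          gcongr
          rw [← Real.exp_add]
          apply Real.exp_le_exp.2
          have h6 := mul_le_mul_of_nonneg_left (abs_sub t τ) (by positivity : (0:ℝ) ≤ Real.pi / 32)
          linarith
      _ = _ := by ring
  unfold HH
  rw [e1, norm_mul, norm_mul]
  calc _ ≤ (G0 * Real.exp (-(θ' * |t|))) * Real.exp (th0 * |t|) *
        (|CL| * Real.exp (Real.pi / 32 * |τ|) * Real.exp (Real.pi / 32 * |t|)) := by
        gcongr
    _ = G0 * (|CL| * Real.exp (Real.pi / 32 * |τ|)) *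
        (Real.exp (-(θ' * |t|)) * Real.exp (th0 * |t|) * Real.exp (Real.pi / 32 * |t|)) := by ring
    _ ≤ G0 * (|CL| * Real.exp (Real.pi / 32 * |τ|)) * 1 := by
        gcongr
        rw [← Real.exp_add, ← Real.exp_add]
        apply Real.exp_le_one_iff.2
        have : -(θ' * |t|) + th0 * |t| + Real.pi / 32 * |t| = -(Real.pi / 64 * |t|) := by
          rw [hθ']; unfold Pool.Agent.Y19.QT.th0; ring
        rw [this]
        have := abs_nonneg t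
        have : 0 ≤ Real.pi / 64 * |t| := by positivity
        linarith
    _ = _ := mul_one _

lemma to_kk (a : ℕ → ℝ) (ω : ℂ) (c3 τ σ u0 : ℝ) (h1 : 1 ≤ c3) (hu : 0 < u0) :
    ∫⁻ u in Ioi u0, ‖es (co a c3 τ) ω u‖ₑ ^ 2 * ENNReal.ofReal (u ^ (2 * σ)) ≤
      ENNReal.ofReal (u0 ^ (1 - 2 * c3)) *
        ∫⁻ x : ℝ, ‖kk a ω c3 τ x * cexp (-(((σ - 1 / 2 : ℝ) : ℂ) * x))‖ₑ ^ 2 := by
  set G : ℝ → ℝ≥0∞ := fun u => ‖es (co a c3 τ) ω u‖ₑ ^ 2 * ENNReal.ofReal (u ^ (2 * (c3 + σ) - 1)) with hG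
  have e1 : ∫⁻ u in Ioi (0:ℝ), G u =
      ∫⁻ x : ℝ, ‖kk a ω c3 τ x * cexp (-(((σ - 1 / 2 : ℝ) : ℂ) * x))‖ₑ ^ 2 := by
    rw [← exp_img, lintegral_image_eq_lintegral_abs_deriv_mul MeasurableSet.univ exp_deriv exp_inj,
      setLIntegral_univ]
    refine lintegral_congr fun x => ?_
    simp only [hG]
    rw [abs_neg, abs_of_pos (Real.exp_pos _), kk_mul, enorm_mul, mul_pow, mul_comm, mul_assoc,
      ← ENNReal.ofReal_mul (by positivity)]
    congr 1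
    rw [← ofReal_norm, Complex.norm_exp, ← ENNReal.ofReal_pow (Real.exp_pos _).le]
    congr 1
    rw [← Real.exp_mul, ← Real.exp_nat_mul, ← Real.exp_add]
    congr 1
    have : (-((((σ - 1 / 2 : ℝ) : ℂ) + ((c3 + 1 / 2 : ℝ) : ℂ)) * (x : ℂ))).re = -((c3 + σ) * x) := by
      rw [neg_re, re_mul_ofReal, add_re, ofReal_re, ofReal_re]; ring
    rw [this]
    push_cast
    ring
  calc _ ≤ ∫⁻ u in Ioi u0, ENNReal.ofReal (u0 ^ (1 - 2 * c3)) * G u := by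
        refine setLIntegral_mono' measurableSet_Ioi fun u hu' => ?_
        have hu1 : u0 < u := hu'
        have hu2 : 0 < u := hu.trans hu1
        simp only [hG]
        rw [mul_left_comm, ← ENNReal.ofReal_mul (by positivity)]
        refine mul_le_mul_right (ENNReal.ofReal_le_ofReal ?_) _
        calc u ^ (2 * σ) = u ^ (1 - 2 * c3) * u ^ (2 * (c3 + σ) - 1) := by
              rw [← Real.rpow_add hu2]; congr 1; ring
          _ ≤ _ := by
              apply mul_le_mul_of_nonneg_right _ (by positivity)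
              exact Real.rpow_le_rpow_of_nonpos hu hu1.le (by linarith)
    _ ≤ ∫⁻ u in Ioi (0:ℝ), ENNReal.ofReal (u0 ^ (1 - 2 * c3)) * G u :=
        lintegral_mono_set (Ioi_subset_Ioi hu.le)
    _ = _ := by rw [lintegral_const_mul' _ _ ENNReal.ofReal_ne_top, e1]

/-- Mellin-Plancherel bound for one exponential sum -/
theorem mp {C : ℝ} (hC : 0 < C)
    (hG : ∀ x y : ℝ, 1 ≤ x → x ≤ 11 →
      ‖Gamma ((x : ℂ) + y * I)‖ ^ 2 ≤ C * (1 + |y|) ^ 22 * Real.exp (-(Real.pi * |y|)))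
    {a : ℕ → ℝ} {L : ℂ → ℂ} {c3 σ u0 CL θ τ : ℝ} {b : ℕ} (h1 : 1 ≤ c3) (h2 : c3 ≤ 10) (h3 : 1 / 2 < σ)
    (h4 : σ ≤ 1) (hu : 0 < u0) (hb : 0 < b) (ha0 : a 0 = 0) (ha : ∀ n, |a n| ≤ n)
    (hL : DifferentiableOn ℂ L {s | 1 / 2 < s.re})
    (hg : ∀ s : ℂ, σ ≤ s.re → s.re ≤ 3 → ‖L s‖ ≤ CL * Real.exp (Real.pi / 32 * |s.im|))
    (hLs : ∀ s : ℂ, 2 < s.re → L s = ∑' n : ℕ, (a n : ℂ) * (n : ℂ) ^ (-s)) (hθ : |θ| ≤ th0) :
    ∫⁻ u in Ioi u0, ‖es (co a c3 τ) ((2 * Real.pi * b : ℝ) * cexp (θ * I)) u‖ₑ ^ 2 *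
        ENNReal.ofReal (u ^ (2 * σ)) ≤
      ENNReal.ofReal (u0 ^ (1 - 2 * c3)) *
        (ENNReal.ofReal (C * (b : ℝ) ^ (-(2 * (c3 + σ))) *
          ((1 + |τ|) ^ 22 * Real.exp (Real.pi / 8 * |τ|))) *
        ∫⁻ y : ℝ, ‖L (σ + y * I)‖ₑ ^ 2 * ENNReal.ofReal (wt y)) := by
  have hb0 : (0:ℝ) < b := by exact_mod_cast hb
  set ω : ℂ := (2 * Real.pi * b : ℝ) * cexp (θ * I) with hω
  have hωre : 0 < ω.re := om_re hθ hb
  have hω0 : ω ≠ 0 := by intro h; rw [h] at hωre; simp at hωre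
  refine (to_kk a ω c3 τ σ u0 h1 hu).trans (mul_le_mul_right ?_ _)
  by_cases hJ : ∫⁻ y : ℝ, ‖L (σ + y * I)‖ₑ ^ 2 * ENNReal.ofReal (wt y) = ⊤
  · rw [hJ, ENNReal.mul_top]
    · exact le_top
    · rw [ne_eq, ENNReal.ofReal_eq_zero, not_le]
      positivity
  · have hfin := HH_int (τ := τ) hC hG h1 h2 h3 h4 hθ hb L
    rw [← hω] at hfin
    have hlt := hfin.trans_lt (ENNReal.mul_lt_top ENNReal.ofReal_lt_top (lt_top_iff_ne_top.2 hJ))
    obtain ⟨B, hB⟩ := HH_bdd (L := L) (τ := τ) h1 h2 h3 hθ hb hg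
    rw [← hω] at hB
    have hst := Pool.Agent.TH270.MS.PW.strip (k := kk a ω c3 τ) (H := HH L ω c3 τ) (a := 3 / 2)
      (δ := σ - 1 / 2) (by linarith) (by linarith)
      (kk_mellin (s := ((3 / 2 + 1 : ℝ) : ℂ)) hωre h1 h2 ha0 ha hLs (by simp)).1
      (fun s hs => (kk_mellin hωre h1 h2 ha0 ha hLs hs).2)
      (fun s hs => HH_diff hω0 h1 hL hs) hB hlt
    exact hst.trans hfin

end Pool.Agent.Y812.QT5
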