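import Mathlib
import Pool.Agent.Y812.QT5D

set_option autoImplicit false

/-! Project QT, task T5: representation of the off-diagonal sum as an integral of products. -/

namespace Pool.Agent.Y812.QT5

open Complex MeasureTheory Filter Topology Set
open scoped ENNReal ComplexConjugate
open Pool.Agent.Y19.QT (th0 AA ray)

lemma co_zero {a : ℕ → ℝ} (ha0 : a 0 = 0) (c3 τ : ℝ) : co a c3 τ 0 = 0 := by simp [co, ha0]

lemma co_norm_eq {a : ℕ → ℝ} (ha0 : a 0 = 0) (c3 τ : ℝ) (m : ℕ) : ‖co a c3 τ m‖ = ‖co a c3 0 m‖ := by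
  by_cases hm : m = 0
  · rw [hm, co_zero ha0, co_zero ha0]
  · have hm0 : (0:ℝ) < m := by exact_mod_cast Nat.pos_of_ne_zero hm
    unfold co
    rw [norm_mul, norm_mul, ← Complex.ofReal_natCast, norm_cpow_eq_rpow_re_of_pos hm0,
      norm_cpow_eq_rpow_re_of_pos hm0]
    simp

lemma sqc {x : ℝ} (hx : 0 < x) (z : ℂ) : ((x ^ 2 : ℝ) : ℂ) ^ z = (x : ℂ) ^ (2 * z) := by
  have hx' : (x : ℂ) ≠ 0 := by exact_mod_cast hx.ne'
  have hx2 : ((x ^ 2 : ℝ) : ℂ) ≠ 0 := by exact_mod_cast (pow_pos hx 2).ne'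
  rw [cpow_def_of_ne_zero hx', cpow_def_of_ne_zero hx2, ← ofReal_log (pow_pos hx 2).le, Real.log_pow,
    ← ofReal_log hx.le]
  congr 1
  push_cast
  ring

/-- the constant `b⁴/(πR²)` -/
noncomputable def Ac (b : ℕ) (R : ℝ) : ℝ := (b : ℝ) ^ 4 / (Real.pi * R ^ 2)

/-- the kernel of the inverse Mellin transform -/
noncomputable def qq (b : ℕ) (R c3 y : ℝ) : ℂ :=
  (Ac b R : ℂ) ^ (((c3 / 2 : ℝ) : ℂ) + y * I) * Gamma (((c3 / 2 : ℝ) : ℂ) + y * I)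

/-- `exp(-π(R/(b²m₁m₂))²)` as an integral -/
lemma gauss_rep {b m1 m2 : ℕ} {R c3 : ℝ} (hb : 0 < b) (h1 : 0 < m1) (h2 : 0 < m2) (hR : 0 < R)
    (hc : 1 ≤ c3) :
    Integrable (fun y : ℝ => qq b R c3 y * ((m1 : ℂ) ^ ((c3 : ℂ) + (2 * y : ℝ) * I)) *
      ((m2 : ℂ) ^ ((c3 : ℂ) + (2 * y : ℝ) * I))) ∧
    ∫ y : ℝ, qq b R c3 y * ((m1 : ℂ) ^ ((c3 : ℂ) + (2 * y : ℝ) * I)) *
      ((m2 : ℂ) ^ ((c3 : ℂ) + (2 * y : ℝ) * I)) =
      2 * Real.pi * ((Real.exp (-(Real.pi * (R / ((b : ℝ) ^ 2 * (m1 : ℝ) * (m2 : ℝ))) ^ 2)) : ℝ) : ℂ) := by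
  have hb0 : (0:ℝ) < b := by exact_mod_cast hb
  have h10 : (0:ℝ) < m1 := by exact_mod_cast h1
  have h20 : (0:ℝ) < m2 := by exact_mod_cast h2
  have hpi := Real.pi_pos
  set X : ℝ := R / ((b : ℝ) ^ 2 * (m1 : ℝ) * (m2 : ℝ)) with hX
  have hX0 : 0 < X := by positivity
  set ω : ℂ := ((Real.pi * X ^ 2 : ℝ) : ℂ) with hω
  have hωre : 0 < ω.re := by rw [hω, ofReal_re]; positivity
  have hA0 : 0 < Ac b R := by unfold Ac; positivity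
  have e : ∀ y : ℝ, (1 / ω) ^ (((c3 / 2 : ℝ) : ℂ) + y * I) * Gamma (((c3 / 2 : ℝ) : ℂ) + y * I) =
      qq b R c3 y * ((m1 : ℂ) ^ ((c3 : ℂ) + (2 * y : ℝ) * I)) *
      ((m2 : ℂ) ^ ((c3 : ℂ) + (2 * y : ℝ) * I)) := by
    intro y
    have e1 : 1 / ω = ((Ac b R : ℝ) : ℂ) * ((((m1 : ℝ) ^ 2 : ℝ) : ℂ) * (((m2 : ℝ) ^ 2 : ℝ) : ℂ)) := by
      rw [hω]
      have : (1 : ℝ) / (Real.pi * X ^ 2) = Ac b R * ((m1 : ℝ) ^ 2 * (m2 : ℝ) ^ 2) := by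
        rw [hX]; unfold Ac; field_simp
      rw [← ofReal_mul, ← ofReal_mul, ← this]
      push_cast
      rfl
    have hm1 : ((((m1 : ℝ) ^ 2 : ℝ) : ℂ) * (((m2 : ℝ) ^ 2 : ℝ) : ℂ)) ≠ 0 := by
      rw [← ofReal_mul]
      exact_mod_cast (by positivity : (0:ℝ) < (m1 : ℝ) ^ 2 * (m2 : ℝ) ^ 2).ne'
    have hm2 : (((m2 : ℝ) ^ 2 : ℝ) : ℂ) ≠ 0 := by exact_mod_cast (pow_pos h20 2).ne'
    rw [e1, mulc hA0 hm1, mulc (pow_pos h10 2) hm2, sqc h10, sqc h20]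
    have e2 : 2 * (((c3 / 2 : ℝ) : ℂ) + y * I) = (c3 : ℂ) + (2 * y : ℝ) * I := by push_cast; ring
    rw [e2, qq, Complex.ofReal_natCast, Complex.ofReal_natCast]
    ring
  have hi := Pool.Agent.H402R2.T4b.vint (ω := ω) hωre (c := c3 / 2) (by linarith)
  have hc' := Pool.Agent.H402R2.T4b.cahen (ω := ω) hωre (c := c3 / 2) (by linarith)
  refine ⟨hi.congr (Eventually.of_forall e), ?_⟩
  rw [← integral_congr_ae (Eventually.of_forall e), hc', hω, ← ofReal_neg, ← ofReal_exp]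

lemma qq_norm {b : ℕ} {R : ℝ} (hb : 0 < b) (hR : 0 < R) (c3 y : ℝ) :
    ‖qq b R c3 y‖ = (Ac b R) ^ (c3 / 2) * ‖Gamma (((c3 / 2 : ℝ) : ℂ) + y * I)‖ := by
  have hb0 : (0:ℝ) < b := by exact_mod_cast hb
  have hpi := Real.pi_pos
  have hA0 : 0 < Ac b R := by unfold Ac; positivity
  unfold qq
  rw [norm_mul, norm_cpow_eq_rpow_re_of_pos hA0]
  simp

/-- the term of the double sum -/
noncomputable def PP (a : ℕ → ℝ) (b : ℕ) (R c3 : ℝ) (ω ω' : ℂ) (u y : ℝ) (m : ℕ × ℕ) : ℂ :=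
  qq b R c3 y * ((co a c3 (2 * y) m.1 * cexp (-(ω * m.1 * u))) *
    (co a c3 (2 * y) m.2 * cexp (-(ω' * m.2 * u))))

lemma PP_main {a : ℕ → ℝ} {b : ℕ} {R c3 : ℝ} {ω ω' : ℂ} {u : ℝ} (hb : 0 < b) (hR : 0 < R) (h1 : 1 ≤ c3)
    (ha0 : a 0 = 0) (m : ℕ × ℕ) :
    Integrable (fun y => PP a b R c3 ω ω' u y m) ∧
    ∫ y, PP a b R c3 ω ω' u y m = 2 * Real.pi * (((a m.1 * a m.2 *
      Real.exp (-(Real.pi * (R / ((b : ℝ) ^ 2 * (m.1 : ℝ) * (m.2 : ℝ))) ^ 2)) : ℝ) : ℂ) *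
      (cexp (-(ω * m.1 * u)) * cexp (-(ω' * m.2 * u)))) := by
  by_cases hm1 : m.1 = 0
  · have : ∀ y, PP a b R c3 ω ω' u y m = 0 := by
      intro y; unfold PP; rw [hm1, co_zero ha0]; ring
    simp only [this]
    refine ⟨integrable_zero _ _ _, ?_⟩
    rw [integral_zero, hm1, ha0]
    simp
  by_cases hm2 : m.2 = 0
  · have : ∀ y, PP a b R c3 ω ω' u y m = 0 := by
      intro y; unfold PP; rw [hm2, co_zero ha0]; ring
    simp only [this]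
    refine ⟨integrable_zero _ _ _, ?_⟩
    rw [integral_zero, hm2, ha0]
    simp
  have h := gauss_rep hb (Nat.pos_of_ne_zero hm1) (Nat.pos_of_ne_zero hm2) hR h1
  have e : ∀ y : ℝ, PP a b R c3 ω ω' u y m =
      ((a m.1 : ℂ) * (a m.2 : ℂ) * (cexp (-(ω * m.1 * u)) * cexp (-(ω' * m.2 * u)))) *
      (qq b R c3 y * ((m.1 : ℂ) ^ ((c3 : ℂ) + (2 * y : ℝ) * I)) *
        ((m.2 : ℂ) ^ ((c3 : ℂ) + (2 * y : ℝ) * I))) := by
    intro y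
    unfold PP co
    ring
  constructor
  · exact (h.1.const_mul _).congr (Eventually.of_forall fun y => (e y).symm)
  · rw [integral_congr_ae (Eventually.of_forall e), integral_const_mul, h.2]
    push_cast
    ring

lemma PP_sum {a : ℕ → ℝ} {b : ℕ} {R c3 : ℝ} {ω ω' : ℂ} {u : ℝ} (h2 : c3 ≤ 10)
    (ha0 : a 0 = 0) (ha : ∀ n, |a n| ≤ n) (hω : 0 < ω.re) (hω' : 0 < ω'.re) (hu : 0 < u) (y : ℝ) :
    ∑' m, PP a b R c3 ω ω' u y m =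
      qq b R c3 y * (es (co a c3 (2 * y)) ω u * es (co a c3 (2 * y)) ω' u) := by
  unfold PP
  rw [tsum_mul_left]
  congr 1
  unfold es
  rw [tsum_mul_tsum_of_summable_norm (es_summable hω (co_norm' a c3 (2 * y) h2 ha0 ha) hu)
    (es_summable hω' (co_norm' a c3 (2 * y) h2 ha0 ha) hu)]

lemma PP_summable {a : ℕ → ℝ} {b : ℕ} {R c3 : ℝ} {ω ω' : ℂ} {u : ℝ} (h2 : c3 ≤ 10)
    (ha0 : a 0 = 0) (ha : ∀ n, |a n| ≤ n) (hω : 0 < ω.re) (hω' : 0 < ω'.re) (hu : 0 < u) :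
    Summable (fun m => ∫ y, ‖PP a b R c3 ω ω' u y m‖) := by
  have e : ∀ m : ℕ × ℕ, ∫ y, ‖PP a b R c3 ω ω' u y m‖ =
      (∫ y, ‖qq b R c3 y‖) * (‖co a c3 0 m.1 * cexp (-(ω * m.1 * u))‖ *
        ‖co a c3 0 m.2 * cexp (-(ω' * m.2 * u))‖) := by
    intro m
    rw [← integral_mul_const]
    refine integral_congr_ae (Eventually.of_forall fun y => ?_)
    simp only [PP, norm_mul]
    rw [co_norm_eq ha0 c3 (2 * y) m.1, co_norm_eq ha0 c3 (2 * y) m.2]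
  simp only [e]
  apply Summable.mul_left
  exact (es_summable hω (co_norm' a c3 0 h2 ha0 ha) hu).mul_of_nonneg
    (es_summable hω' (co_norm' a c3 0 h2 ha0 ha) hu) (fun _ => norm_nonneg _) (fun _ => norm_nonneg _)

lemma AA_eq {a : ℕ → ℝ} {b : ℕ} {R c3 θ : ℝ} {u : ℝ} (hb : 0 < b) (hR : 0 < R) (h1 : 1 ≤ c3)
    (h2 : c3 ≤ 10) (ha0 : a 0 = 0) (ha : ∀ n, |a n| ≤ n) (hθ : |θ| ≤ th0) (hu : 0 < u) :
    2 * Real.pi * AA a b R (ray θ u) =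
      ∫ y, qq b R c3 y * (es (co a c3 (2 * y)) ((2 * Real.pi * b : ℝ) * cexp (θ * I)) u *
        es (co a c3 (2 * y)) ((2 * Real.pi * b : ℝ) * cexp ((-θ : ℝ) * I)) u) := by
  set ω : ℂ := (2 * Real.pi * b : ℝ) * cexp (θ * I) with hω
  set ω' : ℂ := (2 * Real.pi * b : ℝ) * cexp ((-θ : ℝ) * I) with hω'
  have hr : 0 < ω.re := om_re hθ hb
  have hr' : 0 < ω'.re := om_re (by rwa [abs_neg]) hb
  have hs := hasSum_integral_of_summable_integral_norm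
    (fun m => (PP_main (ω := ω) (ω' := ω') (u := u) hb hR h1 ha0 m).1)
    (PP_summable (b := b) (R := R) h2 ha0 ha hr hr' hu)
  have hmain := hs.tsum_eq
  simp only [PP_sum h2 ha0 ha hr hr' hu] at hmain
  rw [← hmain]
  simp only [(PP_main (ω := ω) (ω' := ω') (u := u) hb hR h1 ha0 _).2]
  rw [tsum_mul_left]
  congr 1
  unfold AA
  apply tsum_congr
  intro m
  congr 1
  rw [← Complex.exp_add]
  congr 1
  have e1 : (starRingEnd ℂ) (ray θ u) = u * cexp ((-θ : ℝ) * I) := by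
    unfold ray
    rw [map_mul, Complex.conj_ofReal, ← Complex.exp_conj, map_mul, Complex.conj_ofReal, Complex.conj_I]
    congr 2
    push_cast
    ring
  rw [e1, hω, hω']
  unfold ray
  push_cast
  ring

lemma en_mul_le (x y : ℝ≥0∞) : x * y ≤ x ^ 2 + y ^ 2 := by
  rcases le_total x y with h | h
  · calc x * y ≤ y * y := mul_le_mul_left h y
      _ = y ^ 2 := (sq y).symm
      _ ≤ _ := le_add_self
  · calc x * y ≤ x * x := mul_le_mul_right h x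
      _ = x ^ 2 := (sq x).symm
      _ ≤ _ := le_self_add

lemma AA_le {a : ℕ → ℝ} {b : ℕ} {R c3 θ : ℝ} {u : ℝ} (hb : 0 < b) (hR : 0 < R) (h1 : 1 ≤ c3)
    (h2 : c3 ≤ 10) (ha0 : a 0 = 0) (ha : ∀ n, |a n| ≤ n) (hθ : |θ| ≤ th0) (hu : 0 < u) :
    ‖AA a b R (ray θ u)‖ₑ ≤
      ∫⁻ y, ‖qq b R c3 y‖ₑ *
        (‖es (co a c3 (2 * y)) ((2 * Real.pi * b : ℝ) * cexp (θ * I)) u‖ₑ ^ 2 +
        ‖es (co a c3 (2 * y)) ((2 * Real.pi * b : ℝ) * cexp ((-θ : ℝ) * I)) u‖ₑ ^ 2) := by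
  have h := AA_eq hb hR h1 h2 ha0 ha hθ hu
  have h3 : ‖AA a b R (ray θ u)‖ₑ ≤ ‖2 * (Real.pi : ℂ) * AA a b R (ray θ u)‖ₑ := by
    rw [← ofReal_norm, ← ofReal_norm]
    apply ENNReal.ofReal_le_ofReal
    rw [norm_mul]
    have : (1:ℝ) ≤ ‖2 * (Real.pi : ℂ)‖ := by
      rw [norm_mul, Complex.norm_real, Real.norm_of_nonneg Real.pi_pos.le]
      norm_num
      linarith [Real.pi_gt_three]
    exact le_mul_of_one_le_left (norm_nonneg _) this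
  refine h3.trans ?_
  rw [h]
  refine (enorm_integral_le_lintegral_enorm _).trans ?_
  apply lintegral_mono
  intro y
  simp only
  rw [enorm_mul, enorm_mul]
  exact mul_le_mul_right (en_mul_le _ _) _

end Pool.Agent.Y812.QT5
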