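import Mathlib
import Pool.Agent.Y812.QT5E

set_option autoImplicit false

/-! Project QT, task T5: the Mellin transform bound for the off-diagonal. -/

namespace Pool.Agent.Y812.QT5

open Complex MeasureTheory Filter Topology Set
open scoped ENNReal ComplexConjugate
open Pool.Agent.Y19.QT (th0 AA ray)

lemma es_meas {a : ℕ → ℝ} {c3 : ℝ} {ω : ℂ} {u0 : ℝ} (h2 : c3 ≤ 10) (ha0 : a 0 = 0)
    (ha : ∀ n, |a n| ≤ n) (hω : 0 < ω.re) (hu : 0 < u0) :
    AEMeasurable (fun p : ℝ × ℝ => es (co a c3 (2 * p.2)) ω p.1)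
      ((volume.restrict (Ioi u0)).prod volume) := by
  refine aemeasurable_of_tendsto_metrizable_ae atTop
    (f := fun (N : ℕ) (p : ℝ × ℝ) => ∑ m ∈ Finset.range N, co a c3 (2 * p.2) m * cexp (-(ω * m * p.1)))
    ?_ ?_
  · intro N
    apply Measurable.aemeasurable
    apply Finset.measurable_fun_sum
    intro m _
    by_cases hm : m = 0
    · rw [hm]; simp only [co_zero ha0, zero_mul]; exact measurable_const
    · have hm' : (m : ℂ) ≠ 0 := by exact_mod_cast hm
      apply Continuous.measurable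
      unfold co
      have : Continuous (fun p : ℝ × ℝ => (m : ℂ) ^ ((c3 : ℂ) + ((2 * p.2 : ℝ) : ℂ) * I)) := by
        apply Continuous.const_cpow (by fun_prop)
        exact Or.inl hm'
      fun_prop
  · have h : ∀ᵐ u ∂(volume.restrict (Ioi u0)), u ∈ Ioi u0 := ae_restrict_mem measurableSet_Ioi
    have h' := (Measure.quasiMeasurePreserving_fst (μ := volume.restrict (Ioi u0))
      (ν := (volume : Measure ℝ))).ae h
    filter_upwards [h'] with p hp
    have hp0 : 0 < p.1 := hu.trans hp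
    exact (es_summable hω (co_norm' a c3 (2 * p.2) h2 ha0 ha) hp0).of_norm.hasSum.tendsto_sum_nat

lemma qq_meas (b : ℕ) (R c3 : ℝ) (hb : 0 < b) (hR : 0 < R) (h1 : 1 ≤ c3) :
    Measurable (fun y : ℝ => ‖qq b R c3 y‖ₑ) := by
  have hb0 : (0:ℝ) < b := by exact_mod_cast hb
  have hpi := Real.pi_pos
  have hA0 : 0 < Ac b R := by unfold Ac; positivity
  have hA' : ((Ac b R : ℝ) : ℂ) ≠ 0 := by exact_mod_cast hA0.ne'
  apply Continuous.measurable
  apply Continuous.enorm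
  unfold qq
  apply Continuous.mul
  · apply Continuous.const_cpow (by fun_prop)
    exact Or.inl hA'
  · exact Pool.Agent.H402R2.T4b.Gamma_line_cont (c := c3 / 2) (by linarith)

/-- the weighted Gamma integral is finite -/
lemma gam_fin {c3 : ℝ} (h1 : 1 ≤ c3) :
    ∫⁻ y : ℝ, ENNReal.ofReal (‖Gamma (((c3 / 2 : ℝ) : ℂ) + y * I)‖ *
      ((1 + |2 * y|) ^ 22 * Real.exp (Real.pi / 8 * |2 * y|))) < ⊤ := by
  have hpi := Real.pi_pos
  set θ' : ℝ := 3 * Real.pi / 8 with hθ'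
  have hc0 : 0 < Real.cos θ' := Real.cos_pos_of_mem_Ioo ⟨by rw [hθ']; linarith, by rw [hθ']; linarith⟩
  -- polynomial growth against exponential decay
  obtain ⟨K, hK⟩ : ∃ K : ℝ, ∀ y : ℝ, (1 + |2 * y|) ^ 22 ≤ K * Real.exp (Real.pi / 16 * |y|) := by
    obtain ⟨K, hK⟩ : ∃ K : ℝ, ∀ x : ℝ, 0 ≤ x → (1 + x) ^ 22 ≤ K * Real.exp (Real.pi / 32 * x) := by
      refine ⟨(Nat.factorial 22 : ℝ) / (Real.pi / 32) ^ 22 * Real.exp (Real.pi / 32), fun x hx => ?_⟩
      have h := Real.pow_div_factorial_le_exp (Real.pi / 32 * (1 + x)) (by positivity) 22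
      rw [mul_pow] at h
      have e : Real.exp (Real.pi / 32) * Real.exp (Real.pi / 32 * x) =
          Real.exp (Real.pi / 32 * (1 + x)) := by rw [← Real.exp_add]; congr 1; ring
      rw [mul_assoc, e, div_mul_eq_mul_div, le_div_iff₀ (by positivity)]
      rw [div_le_iff₀ (by positivity)] at h
      linarith
    refine ⟨K, fun y => ?_⟩
    have := hK |2 * y| (abs_nonneg _)
    rw [abs_mul, abs_two] at this ⊢
    convert this using 3
    ring
  have hK0 : 0 ≤ K := by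
    have := hK 0
    simp at this
    linarith
  have hint : Integrable (fun y : ℝ => (Real.Gamma (c3 / 2) / Real.cos θ' ^ (c3 / 2) * K) *
      Real.exp (-(Real.pi / 16 * |y|))) :=
    (Pool.Agent.H402R2.T4b.int_exp_abs (a := Real.pi / 16) (by positivity)).const_mul _
  have hGp : 0 < Real.Gamma (c3 / 2) := Real.Gamma_pos_of_pos (by linarith)
  calc _ ≤ ∫⁻ y : ℝ, ENNReal.ofReal ((Real.Gamma (c3 / 2) / Real.cos θ' ^ (c3 / 2) * K) *
      Real.exp (-(Real.pi / 16 * |y|))) := by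
        apply lintegral_mono
        intro y
        apply ENNReal.ofReal_le_ofReal
        have h := Pool.Agent.Helper242.KK.norm_Gamma_le_of_angle (σ := c3 / 2) (v := y) (θ := θ')
          (by linarith) (by rw [hθ']; positivity) (by rw [hθ']; linarith)
        calc _ ≤ (Real.exp (-θ' * |y|) * Real.Gamma (c3 / 2) / Real.cos θ' ^ (c3 / 2)) *
              ((K * Real.exp (Real.pi / 16 * |y|)) * Real.exp (Real.pi / 8 * |2 * y|)) := by
              gcongr
              exact hK y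
          _ = (Real.Gamma (c3 / 2) / Real.cos θ' ^ (c3 / 2) * K) *
              (Real.exp (-θ' * |y|) * Real.exp (Real.pi / 16 * |y|) * Real.exp (Real.pi / 8 * |2 * y|)) := by
              ring
          _ = _ := by
              rw [← Real.exp_add, ← Real.exp_add, abs_mul, abs_two]
              congr 2
              rw [hθ']
              ring
    _ < ⊤ := by
        rw [← ofReal_integral_eq_lintegral_ofReal hint (Eventually.of_forall fun y => by positivity)]
        exact ENNReal.ofReal_lt_top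

/-- T5: the Mellin transform bound for the off-diagonal -/
theorem T5 (c3 : ℝ) (h1 : 1 ≤ c3) (h2 : c3 ≤ 10) : ∃ C : ℝ, 0 < C ∧
    ∀ (a : ℕ → ℝ) (L : ℂ → ℂ) (σ R u0 CL : ℝ) (b : ℕ), 1 / 2 < σ → σ ≤ 1 → 0 < R → 0 < u0 → 0 < b →
      a 0 = 0 → (∀ n, |a n| ≤ n) → DifferentiableOn ℂ L {s | 1 / 2 < s.re} →
      (∀ s : ℂ, σ ≤ s.re → s.re ≤ 3 → ‖L s‖ ≤ CL * Real.exp (Real.pi / 32 * |s.im|)) →
      (∀ s : ℂ, 2 < s.re → L s = ∑' n : ℕ, (a n : ℂ) * (n : ℂ) ^ (-s)) →
      ∫⁻ u in Set.Ioi u0, ‖AA a b R (ray th0 u)‖ₑ * ENNReal.ofReal (u ^ (2 * σ)) ≤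
        ENNReal.ofReal (C * R ^ (-c3) * u0 ^ (1 - 2 * c3) * (b : ℝ) ^ (-(2 * σ))) *
          ∫⁻ y : ℝ, ‖L (σ + y * I)‖ₑ ^ 2 *
            ENNReal.ofReal ((1 + |y|) ^ 24 * Real.exp (-(Real.pi / 8 * |y|))) := by
  obtain ⟨C, hC, hG⟩ := gamma_bound
  set W : ℝ≥0∞ := ∫⁻ y : ℝ, ENNReal.ofReal (‖Gamma (((c3 / 2 : ℝ) : ℂ) + y * I)‖ *
      ((1 + |2 * y|) ^ 22 * Real.exp (Real.pi / 8 * |2 * y|))) with hW
  have hWlt : W < ⊤ := gam_fin h1
  refine ⟨2 * C * (W.toReal + 1), by positivity, ?_⟩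
  intro a L σ R u0 CL b h3 h4 hR hu hb ha0 ha hL hg hLs
  have hb0 : (0:ℝ) < b := by exact_mod_cast hb
  have hpi := Real.pi_pos
  have hA0 : 0 < Ac b R := by unfold Ac; positivity
  set J : ℝ≥0∞ := ∫⁻ y : ℝ, ‖L (σ + y * I)‖ₑ ^ 2 *
            ENNReal.ofReal ((1 + |y|) ^ 24 * Real.exp (-(Real.pi / 8 * |y|))) with hJ
  set ω : ℂ := (2 * Real.pi * b : ℝ) * cexp (th0 * I) with hω
  set ω' : ℂ := (2 * Real.pi * b : ℝ) * cexp ((-th0 : ℝ) * I) with hω'
  have hθ : |th0| ≤ th0 := (abs_of_pos th0_pos).le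
  have hθ' : |(-th0)| ≤ th0 := by rw [abs_neg]; exact hθ
  have hr : 0 < ω.re := om_re hθ hb
  have hr' : 0 < ω'.re := om_re hθ' hb
  set F : ℝ → ℝ → ℝ≥0∞ := fun u y => ‖qq b R c3 y‖ₑ *
    (‖es (co a c3 (2 * y)) ω u‖ₑ ^ 2 + ‖es (co a c3 (2 * y)) ω' u‖ₑ ^ 2) *
      ENNReal.ofReal (u ^ (2 * σ)) with hF
  have hFm : AEMeasurable (Function.uncurry F) ((volume.restrict (Ioi u0)).prod volume) := by
    have m1 := es_meas (u0 := u0) h2 ha0 ha hr hu
    have m2 := es_meas (u0 := u0) h2 ha0 ha hr' hu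
    have m3 : Measurable (fun p : ℝ × ℝ => ‖qq b R c3 p.2‖ₑ) := (qq_meas b R c3 hb hR h1).comp measurable_snd
    have m4 : Measurable (fun p : ℝ × ℝ => ENNReal.ofReal (p.1 ^ (2 * σ))) :=
      (ENNReal.measurable_ofReal.comp ((measurable_id.pow_const _).comp measurable_fst))
    exact (m3.aemeasurable.mul ((m1.enorm.pow_const 2).add (m2.enorm.pow_const 2))).mul m4.aemeasurable
  have step : ∀ y : ℝ, ∫⁻ u in Ioi u0, F u y ≤
      ENNReal.ofReal (Ac b R ^ (c3 / 2) * u0 ^ (1 - 2 * c3) * (2 * C * (b : ℝ) ^ (-(2 * (c3 + σ))))) * J *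
      ENNReal.ofReal (‖Gamma (((c3 / 2 : ℝ) : ℂ) + y * I)‖ *
      ((1 + |2 * y|) ^ 22 * Real.exp (Real.pi / 8 * |2 * y|))) := by
    intro y
    have i1 := mp (θ := th0) (τ := 2 * y) hC hG h1 h2 h3 h4 hu hb ha0 ha hL hg hLs hθ
    have i2 := mp (θ := -th0) (τ := 2 * y) hC hG h1 h2 h3 h4 hu hb ha0 ha hL hg hLs hθ'
    rw [← hω] at i1
    rw [← hω'] at i2
    have e1 : ∫⁻ u in Ioi u0, F u y = ‖qq b R c3 y‖ₑ *
        ((∫⁻ u in Ioi u0, ‖es (co a c3 (2 * y)) ω u‖ₑ ^ 2 * ENNReal.ofReal (u ^ (2 * σ))) +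
        ∫⁻ u in Ioi u0, ‖es (co a c3 (2 * y)) ω' u‖ₑ ^ 2 * ENNReal.ofReal (u ^ (2 * σ))) := by
      have m1 : AEMeasurable (fun u : ℝ => ‖es (co a c3 (2 * y)) ω u‖ₑ ^ 2 * ENNReal.ofReal (u ^ (2 * σ)))
          (volume.restrict (Ioi u0)) := by
        refine AEMeasurable.mul (f := fun u : ℝ => ‖es (co a c3 (2 * y)) ω u‖ₑ ^ 2)
          (g := fun u : ℝ => ENNReal.ofReal (u ^ (2 * σ))) ?_ ?_
        · refine AEMeasurable.pow_const (AEMeasurable.enorm ?_) 2
          refine aemeasurable_of_tendsto_metrizable_ae atTop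
            (f := fun (N : ℕ) (u : ℝ) => ∑ m ∈ Finset.range N, co a c3 (2 * y) m * cexp (-(ω * m * u)))
            (fun N => ?_) ?_
          · exact Continuous.aemeasurable (by fun_prop)
          · filter_upwards [ae_restrict_mem measurableSet_Ioi] with u hu'
            exact (es_summable hr (co_norm' a c3 (2 * y) h2 ha0 ha)
              (hu.trans hu')).of_norm.hasSum.tendsto_sum_nat
        · exact (ENNReal.measurable_ofReal.comp (measurable_id.pow_const _)).aemeasurable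
      rw [← lintegral_add_left' m1, ← lintegral_const_mul' _ _ enorm_ne_top]
      refine lintegral_congr fun u => ?_
      simp only [hF]
      ring
    rw [e1]
    have hJ' : ∫⁻ y : ℝ, ‖L (σ + y * I)‖ₑ ^ 2 * ENNReal.ofReal (wt y) = J := rfl
    rw [hJ'] at i1 i2
    calc _ ≤ ‖qq b R c3 y‖ₑ * (ENNReal.ofReal (u0 ^ (1 - 2 * c3)) *
        (ENNReal.ofReal (C * (b : ℝ) ^ (-(2 * (c3 + σ))) *
          ((1 + |2 * y|) ^ 22 * Real.exp (Real.pi / 8 * |2 * y|))) * J) +
          ENNReal.ofReal (u0 ^ (1 - 2 * c3)) *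
        (ENNReal.ofReal (C * (b : ℝ) ^ (-(2 * (c3 + σ))) *
          ((1 + |2 * y|) ^ 22 * Real.exp (Real.pi / 8 * |2 * y|))) * J)) :=
          mul_le_mul_right (add_le_add i1 i2) _
      _ = (‖qq b R c3 y‖ₑ * (ENNReal.ofReal (u0 ^ (1 - 2 * c3)) *
        ENNReal.ofReal (C * (b : ℝ) ^ (-(2 * (c3 + σ))) *
          ((1 + |2 * y|) ^ 22 * Real.exp (Real.pi / 8 * |2 * y|))) * 2)) * J := by ring
      _ = _ := by
          rw [mul_right_comm _ J]
          congr 1
          rw [← ofReal_norm, qq_norm hb hR, show (2 : ℝ≥0∞) = ENNReal.ofReal 2 by simp,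
            ← ENNReal.ofReal_mul (by positivity), ← ENNReal.ofReal_mul (by positivity),
            ← ENNReal.ofReal_mul (by positivity), ← ENNReal.ofReal_mul (by positivity)]
          congr 1
          ring
  calc ∫⁻ u in Set.Ioi u0, ‖AA a b R (ray th0 u)‖ₑ * ENNReal.ofReal (u ^ (2 * σ))
      ≤ ∫⁻ u in Ioi u0, ∫⁻ y, F u y := by
        refine setLIntegral_mono' measurableSet_Ioi fun u hu' => ?_
        have h := AA_le (u := u) hb hR h1 h2 ha0 ha hθ (hu.trans hu')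
        simp only [hF]
        rw [lintegral_mul_const' _ _ ENNReal.ofReal_ne_top]
        exact mul_le_mul_left h _
    _ = ∫⁻ y, ∫⁻ u in Ioi u0, F u y := lintegral_lintegral_swap hFm
    _ ≤ ∫⁻ y : ℝ, ENNReal.ofReal (Ac b R ^ (c3 / 2) * u0 ^ (1 - 2 * c3) *
        (2 * C * (b : ℝ) ^ (-(2 * (c3 + σ))))) * J *
      ENNReal.ofReal (‖Gamma (((c3 / 2 : ℝ) : ℂ) + y * I)‖ *
      ((1 + |2 * y|) ^ 22 * Real.exp (Real.pi / 8 * |2 * y|))) := lintegral_mono step
    _ = ENNReal.ofReal (Ac b R ^ (c3 / 2) * u0 ^ (1 - 2 * c3) *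
        (2 * C * (b : ℝ) ^ (-(2 * (c3 + σ))))) * J * W := by
        rw [hW, lintegral_const_mul'']
        refine (Measurable.aemeasurable ?_)
        apply ENNReal.measurable_ofReal.comp
        apply Continuous.measurable
        have hn : Continuous (fun y : ℝ => ‖Gamma (((c3 / 2 : ℝ) : ℂ) + y * I)‖) :=
          (Pool.Agent.H402R2.T4b.Gamma_line_cont (c := c3 / 2) (by linarith)).norm
        have hn2 : Continuous (fun y : ℝ => (1 + |2 * y|) ^ 22 * Real.exp (Real.pi / 8 * |2 * y|)) := by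
          fun_prop
        exact hn.mul hn2
    _ ≤ ENNReal.ofReal (Ac b R ^ (c3 / 2) * u0 ^ (1 - 2 * c3) *
        (2 * C * (b : ℝ) ^ (-(2 * (c3 + σ))))) * J * ENNReal.ofReal (W.toReal + 1) := by
        apply mul_le_mul_right
        calc W = ENNReal.ofReal W.toReal := (ENNReal.ofReal_toReal hWlt.ne).symm
          _ ≤ _ := ENNReal.ofReal_le_ofReal (by linarith)
    _ ≤ _ := by
        rw [mul_right_comm, ← ENNReal.ofReal_mul (by positivity)]
        refine mul_le_mul_left (ENNReal.ofReal_le_ofReal ?_) _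
        have hAc : Ac b R ^ (c3 / 2) ≤ (b : ℝ) ^ (2 * c3) * R ^ (-c3) := by
          unfold Ac
          have e2 : (b : ℝ) ^ 4 / (Real.pi * R ^ 2) = ((b : ℝ) ^ 2 * R⁻¹) ^ 2 * Real.pi⁻¹ := by
            field_simp
          rw [e2, Real.mul_rpow (by positivity) (by positivity)]
          have e3 : (((b : ℝ) ^ 2 * R⁻¹) ^ 2) ^ (c3 / 2) = (b : ℝ) ^ (2 * c3) * R ^ (-c3) := by
            rw [← Real.rpow_natCast, ← Real.rpow_mul (by positivity)]
            have : ((2 : ℕ) : ℝ) * (c3 / 2) = c3 := by push_cast; ring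
            rw [this, Real.mul_rpow (by positivity) (by positivity), ← Real.rpow_natCast (b : ℝ) 2,
              ← Real.rpow_mul hb0.le, Real.inv_rpow hR.le, Real.rpow_neg hR.le]
            push_cast
            ring
          rw [e3]
          apply mul_le_of_le_one_right (by positivity)
          apply Real.rpow_le_one (by positivity)
          · apply inv_le_one_of_one_le₀; linarith [Real.pi_gt_three]
          · linarith
        have e4 : (b : ℝ) ^ (2 * c3) * (b : ℝ) ^ (-(2 * (c3 + σ))) = (b : ℝ) ^ (-(2 * σ)) := by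
          rw [← Real.rpow_add hb0]; congr 1; ring
        calc Ac b R ^ (c3 / 2) * u0 ^ (1 - 2 * c3) * (2 * C * (b : ℝ) ^ (-(2 * (c3 + σ)))) *
              (W.toReal + 1)
            ≤ ((b : ℝ) ^ (2 * c3) * R ^ (-c3)) * u0 ^ (1 - 2 * c3) *
              (2 * C * (b : ℝ) ^ (-(2 * (c3 + σ)))) * (W.toReal + 1) := by gcongr
          _ = 2 * C * (W.toReal + 1) * R ^ (-c3) * u0 ^ (1 - 2 * c3) *
              ((b : ℝ) ^ (2 * c3) * (b : ℝ) ^ (-(2 * (c3 + σ)))) := by ring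
          _ = _ := by rw [e4]

end Pool.Agent.Y812.QT5
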