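import Mathlib
import Pool.Agent.Y812.QT5

set_option autoImplicit false

/-! Project QT, part H, task H5: the Mellin transform bound with an arbitrary angle. -/

namespace Pool.Agent.Y812.QTH5

open Complex MeasureTheory Filter Topology Set
open scoped ENNReal ComplexConjugate
open Pool.Agent.Y19.QT (th0 AA ray)
open Pool.Agent.Y812.QT5 (mulc co co_norm co_norm' co_sum HH es kk kk_mellin HH_diff to_kk co_zero qq qq_norm PP PP_main
  PP_sum PP_summable en_mul_le es_summable Ac qq_meas gam_fin gamma_bound es_meas th0_pos)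

lemma om_re {θ : ℝ} {b : ℕ} (hθ : |θ| < Real.pi / 2) (hb : 0 < b) :
    0 < ((2 * Real.pi * b : ℝ) * cexp (θ * I)).re := by
  have hb0 : (0:ℝ) < b := by exact_mod_cast hb
  rw [Complex.re_ofReal_mul, Complex.exp_ofReal_mul_I_re]
  have hpi := Real.pi_pos
  have h1 := abs_lt.1 hθ
  have : 0 < Real.cos θ := Real.cos_pos_of_mem_Ioo ⟨by linarith, by linarith⟩
  positivity

lemma pw {θ : ℝ} {b : ℕ} (hθ : |θ| < Real.pi / 2) (hb : 0 < b) (s : ℂ) :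
    ‖(1 / ((2 * Real.pi * b : ℝ) * cexp (θ * I))) ^ s‖ =
      (1 / (2 * Real.pi * b)) ^ s.re * Real.exp (θ * s.im) := by
  have hb0 : (0:ℝ) < b := by exact_mod_cast hb
  have hpi := Real.pi_pos
  have h1 := abs_lt.1 hθ
  have e1 : 1 / (((2 * Real.pi * b : ℝ) : ℂ) * cexp (θ * I)) =
      ((1 / (2 * Real.pi * b) : ℝ) : ℂ) * cexp (-(θ * I)) := by
    rw [Complex.exp_neg]
    push_cast
    have := Complex.exp_ne_zero (θ * I)
    have h2 : (b : ℂ) ≠ 0 := by exact_mod_cast hb.ne'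
    have h3 : (Real.pi : ℂ) ≠ 0 := by exact_mod_cast hpi.ne'
    field_simp
  rw [e1, mulc (by positivity) (Complex.exp_ne_zero _), norm_mul,
    norm_cpow_eq_rpow_re_of_pos (by positivity)]
  congr 1
  rw [cpow_def_of_ne_zero (Complex.exp_ne_zero _), Complex.log_exp (by simp; linarith) (by simp; linarith),
    Complex.norm_exp]
  congr 1
  simp

/-- the weight -/
noncomputable def wt (Θ y : ℝ) : ℝ := (1 + |y|) ^ 24 * Real.exp (-((Real.pi - 2 * Θ) * |y|))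

lemma wt_shift {Θ : ℝ} (hΘ0 : th0 ≤ Θ) (hΘ : Θ < Real.pi / 2) (y τ : ℝ) :
    (1 + |y + τ|) ^ 22 * Real.exp (-((Real.pi - 2 * Θ) * |y + τ|)) ≤
    ((1 + |τ|) ^ 22 * Real.exp (Real.pi / 8 * |τ|)) * wt Θ y := by
  have h1 : (1 + |y + τ|) ≤ (1 + |y|) * (1 + |τ|) := by
    have := abs_add_le y τ
    nlinarith [abs_nonneg y, abs_nonneg τ]
  have h2 : (1 + |y + τ|) ^ 22 ≤ (1 + |y|) ^ 22 * (1 + |τ|) ^ 22 := by
    rw [← mul_pow]
    exact pow_le_pow_left₀ (by positivity) h1 22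
  have h3 : (1 + |y|) ^ 22 ≤ (1 + |y|) ^ 24 :=
    pow_le_pow_right₀ (by linarith [abs_nonneg y]) (by norm_num)
  have hk0 : 0 ≤ Real.pi - 2 * Θ := by linarith
  have hk1 : Real.pi - 2 * Θ ≤ Real.pi / 8 := by
    unfold Pool.Agent.Y19.QT.th0 at hΘ0
    linarith
  have h4 : Real.exp (-((Real.pi - 2 * Θ) * |y + τ|)) ≤
      Real.exp (Real.pi / 8 * |τ|) * Real.exp (-((Real.pi - 2 * Θ) * |y|)) := by
    rw [← Real.exp_add]
    apply Real.exp_le_exp.2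
    have h5 : |y| ≤ |y + τ| + |τ| := by
      have := abs_sub (y + τ) τ
      simpa using this
    have h6 := mul_le_mul_of_nonneg_left h5 hk0
    have h7 := mul_le_mul_of_nonneg_right hk1 (abs_nonneg τ)
    rw [mul_add] at h6
    linarith
  unfold wt
  calc _ ≤ ((1 + |y|) ^ 24 * (1 + |τ|) ^ 22) *
        (Real.exp (Real.pi / 8 * |τ|) * Real.exp (-((Real.pi - 2 * Θ) * |y|))) := by
        apply mul_le_mul _ h4 (Real.exp_pos _).le (by positivity)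
        exact h2.trans (mul_le_mul_of_nonneg_right h3 (by positivity))
    _ = _ := by ring

lemma HH_line {C : ℝ} (hC : 0 < C)
    (hG : ∀ x y : ℝ, 1 ≤ x → x ≤ 11 →
      ‖Gamma ((x : ℂ) + y * I)‖ ^ 2 ≤ C * (1 + |y|) ^ 22 * Real.exp (-(Real.pi * |y|)))
    {c3 σ θ τ Θ : ℝ} {b : ℕ} (h1 : 1 ≤ c3) (h2 : c3 ≤ 10) (h3 : 1 / 2 < σ) (h4 : σ ≤ 1)
    (hΘ : Θ < Real.pi / 2) (hθ : |θ| ≤ Θ) (hb : 0 < b) (L : ℂ → ℂ) (t : ℝ) :
    ‖HH L ((2 * Real.pi * b : ℝ) * cexp (θ * I)) c3 τ (((σ - 1 / 2 : ℝ) : ℂ) + t * I)‖ ^ 2 ≤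
      C * (b : ℝ) ^ (-(2 * (c3 + σ))) * ((1 + |t|) ^ 22 * Real.exp (-((Real.pi - 2 * Θ) * |t|))) *
        ‖L (σ + (t - τ : ℝ) * I)‖ ^ 2 := by
  have hθ' : |θ| < Real.pi / 2 := lt_of_le_of_lt hθ hΘ
  have hb0 : (0:ℝ) < b := by exact_mod_cast hb
  have hpi := Real.pi_pos
  unfold HH
  have e1 : (((σ - 1 / 2 : ℝ) : ℂ) + t * I) + (c3 + 1 / 2 : ℝ) = ((c3 + σ : ℝ) : ℂ) + t * I := by
    push_cast; ring
  have e2 : ((c3 + σ : ℝ) : ℂ) + t * I - ((c3 : ℂ) + τ * I) = σ + (t - τ : ℝ) * I := by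
    push_cast; ring
  rw [e1, e2, norm_mul, norm_mul, mul_pow, mul_pow, pw hθ' hb]
  have e3 : (((c3 + σ : ℝ) : ℂ) + t * I).re = c3 + σ := by simp
  have e4 : (((c3 + σ : ℝ) : ℂ) + t * I).im = t := by simp
  rw [e3, e4]
  have g1 := hG (c3 + σ) t (by linarith) (by linarith)
  have g2 : ((1 / (2 * Real.pi * b)) ^ (c3 + σ) * Real.exp (θ * t)) ^ 2 ≤
      (b : ℝ) ^ (-(2 * (c3 + σ))) * Real.exp (2 * Θ * |t|) := by
    rw [mul_pow, ← Real.exp_nat_mul, ← Real.rpow_natCast, ← Real.rpow_mul (by positivity)]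
    apply mul_le_mul
    · rw [show -(2 * (c3 + σ)) = -((c3 + σ) * (2 : ℕ)) by push_cast; ring, Real.rpow_neg hb0.le,
        ← Real.inv_rpow hb0.le, one_div]
      apply Real.rpow_le_rpow (by positivity)
      · apply inv_anti₀ hb0
        exact le_mul_of_one_le_left hb0.le (by linarith [Real.pi_gt_three])
      · push_cast; linarith
    · apply Real.exp_le_exp.2
      have : θ * t ≤ Θ * |t| := by
        calc θ * t ≤ |θ * t| := le_abs_self _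
          _ = |θ| * |t| := abs_mul _ _
          _ ≤ _ := by gcongr
      push_cast
      linarith
    · positivity
    · positivity
  have g3 : Real.exp (-(Real.pi * |t|)) * Real.exp (2 * Θ * |t|) =
      Real.exp (-((Real.pi - 2 * Θ) * |t|)) := by
    rw [← Real.exp_add]
    congr 1
    ring
  calc ‖Gamma (((c3 + σ : ℝ) : ℂ) + t * I)‖ ^ 2 * ((1 / (2 * Real.pi * b)) ^ (c3 + σ) * Real.exp (θ * t)) ^ 2 *
        ‖L (σ + (t - τ : ℝ) * I)‖ ^ 2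
      ≤ (C * (1 + |t|) ^ 22 * Real.exp (-(Real.pi * |t|))) *
        ((b : ℝ) ^ (-(2 * (c3 + σ))) * Real.exp (2 * Θ * |t|)) * ‖L (σ + (t - τ : ℝ) * I)‖ ^ 2 := by
        gcongr
    _ = C * (b : ℝ) ^ (-(2 * (c3 + σ))) * ((1 + |t|) ^ 22 *
          (Real.exp (-(Real.pi * |t|)) * Real.exp (2 * Θ * |t|))) *
          ‖L (σ + (t - τ : ℝ) * I)‖ ^ 2 := by ring
    _ = _ := by rw [g3]

lemma HH_int {C : ℝ} (hC : 0 < C)
    (hG : ∀ x y : ℝ, 1 ≤ x → x ≤ 11 →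
      ‖Gamma ((x : ℂ) + y * I)‖ ^ 2 ≤ C * (1 + |y|) ^ 22 * Real.exp (-(Real.pi * |y|)))
    {c3 σ θ τ Θ : ℝ} {b : ℕ} (h1 : 1 ≤ c3) (h2 : c3 ≤ 10) (h3 : 1 / 2 < σ) (h4 : σ ≤ 1)
    (hΘ0 : th0 ≤ Θ) (hΘ : Θ < Real.pi / 2) (hθ : |θ| ≤ Θ) (hb : 0 < b) (L : ℂ → ℂ) :
    ∫⁻ t : ℝ, ‖HH L ((2 * Real.pi * b : ℝ) * cexp (θ * I)) c3 τ (((σ - 1 / 2 : ℝ) : ℂ) + t * I)‖ₑ ^ 2 ≤
      ENNReal.ofReal (C * (b : ℝ) ^ (-(2 * (c3 + σ))) * ((1 + |τ|) ^ 22 * Real.exp (Real.pi / 8 * |τ|))) *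
        ∫⁻ y : ℝ, ‖L (σ + y * I)‖ₑ ^ 2 * ENNReal.ofReal (wt Θ y) := by
  set K := C * (b : ℝ) ^ (-(2 * (c3 + σ))) with hK
  have hK0 : 0 ≤ K := by positivity
  calc _ ≤ ∫⁻ t : ℝ, ENNReal.ofReal (K * ((1 + |t|) ^ 22 * Real.exp (-((Real.pi - 2 * Θ) * |t|)))) *
        ‖L (σ + (t - τ : ℝ) * I)‖ₑ ^ 2 := by
        apply lintegral_mono
        intro t
        simp only
        have h := HH_line hC hG (τ := τ) h1 h2 h3 h4 hΘ hθ hb L t
        rw [← ofReal_norm, ← ofReal_norm, ← ENNReal.ofReal_pow (norm_nonneg _),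
          ← ENNReal.ofReal_pow (norm_nonneg _), ← ENNReal.ofReal_mul (by positivity)]
        exact ENNReal.ofReal_le_ofReal h
    _ = ∫⁻ y : ℝ, ENNReal.ofReal (K * ((1 + |y + τ|) ^ 22 * Real.exp (-((Real.pi - 2 * Θ) * |y + τ|)))) *
        ‖L (σ + y * I)‖ₑ ^ 2 := by
        rw [← lintegral_add_right_eq_self _ τ]
        refine lintegral_congr fun y => ?_
        rw [add_sub_cancel_right]
    _ ≤ ∫⁻ y : ℝ, ENNReal.ofReal (K * ((1 + |τ|) ^ 22 * Real.exp (Real.pi / 8 * |τ|))) *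
        (‖L (σ + y * I)‖ₑ ^ 2 * ENNReal.ofReal (wt Θ y)) := by
        apply lintegral_mono
        intro y
        simp only
        have hw : 0 ≤ wt Θ y := by unfold wt; positivity
        rw [mul_comm (‖L (σ + y * I)‖ₑ ^ 2) (ENNReal.ofReal (wt Θ y)),
          ← mul_assoc (ENNReal.ofReal (K * ((1 + |τ|) ^ 22 * Real.exp (Real.pi / 8 * |τ|)))),
          ← ENNReal.ofReal_mul (by positivity)]
        refine mul_le_mul_left (ENNReal.ofReal_le_ofReal ?_) _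
        rw [mul_assoc K]
        exact mul_le_mul_of_nonneg_left (wt_shift hΘ0 hΘ y τ) hK0
    _ = _ := by rw [lintegral_const_mul' _ _ ENNReal.ofReal_ne_top]

lemma HH_bdd {L : ℂ → ℂ} {c3 τ σ θ CL Θ : ℝ} {b : ℕ} (h1 : 1 ≤ c3) (h2 : c3 ≤ 10) (h3 : 1 / 2 < σ)
    (hΘ0 : th0 ≤ Θ) (hΘ : Θ < Real.pi / 2) (hθ : |θ| ≤ Θ) (hb : 0 < b)
    (hg : ∀ s : ℂ, σ ≤ s.re → s.re ≤ 3 →
      ‖L s‖ ≤ CL * Real.exp ((Real.pi - 2 * Θ) / 4 * |s.im|)) :
    ∃ B : ℝ, ∀ s : ℂ, σ - 1 / 2 ≤ s.re → s.re ≤ 3 / 2 + 1 →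
      ‖HH L ((2 * Real.pi * b : ℝ) * cexp (θ * I)) c3 τ s‖ ≤ B := by
  have hpi := Real.pi_pos
  have hb1 : (1:ℝ) ≤ b := by exact_mod_cast hb
  have hθ2 : |θ| < Real.pi / 2 := lt_of_le_of_lt hθ hΘ
  have hk0 : 0 < Real.pi - 2 * Θ := by linarith
  have hk1 : Real.pi - 2 * Θ ≤ Real.pi / 8 := by
    unfold Pool.Agent.Y19.QT.th0 at hΘ0
    linarith
  set θ' : ℝ := Real.pi / 2 - (Real.pi - 2 * Θ) / 8 with hθ'
  have hc0 : 0 < Real.cos θ' := Real.cos_pos_of_mem_Ioo ⟨by rw [hθ']; linarith, by rw [hθ']; linarith⟩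
  have hc1 : Real.cos θ' ≤ 1 := Real.cos_le_one _
  set M := max (Real.Gamma 1) (Real.Gamma 13) with hM
  have hMpos : 0 < M := lt_max_of_lt_left (Real.Gamma_pos_of_pos one_pos)
  set G0 := M / Real.cos θ' ^ (13 : ℝ) with hG0
  have hG0pos : 0 < G0 := by positivity
  refine ⟨G0 * (|CL| * Real.exp ((Real.pi - 2 * Θ) / 4 * |τ|)), fun s hs1 hs2 => ?_⟩
  set x := s.re + (c3 + 1 / 2) with hx
  set t := s.im with ht
  have hx1 : 1 ≤ x := by rw [hx]; linarith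
  have hx2 : x ≤ 13 := by rw [hx]; linarith
  have e1 : s + ((c3 + 1 / 2 : ℝ) : ℂ) = (x : ℂ) + t * I := by
    apply Complex.ext <;> simp [hx, ht]
  have gG : ‖Gamma ((x : ℂ) + t * I)‖ ≤ G0 * Real.exp (-(θ' * |t|)) := by
    have h := Pool.Agent.Helper242.KK.norm_Gamma_le_of_angle (σ := x) (v := t) (θ := θ') (by linarith)
      (by rw [hθ']; linarith) (by rw [hθ']; linarith)
    have hmax : Real.Gamma x ≤ M :=
      Real.convexOn_Gamma.le_max_of_mem_Icc (Set.mem_Ioi.2 one_pos)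
        (Set.mem_Ioi.2 (by norm_num : (0:ℝ) < 13)) ⟨hx1, hx2⟩
    have hcos : Real.cos θ' ^ (13 : ℝ) ≤ Real.cos θ' ^ x :=
      Real.rpow_le_rpow_of_exponent_ge hc0 hc1 hx2
    have hGx := Real.Gamma_pos_of_pos (by linarith : (0:ℝ) < x)
    calc _ ≤ Real.exp (-θ' * |t|) * Real.Gamma x / Real.cos θ' ^ x := h
      _ ≤ Real.exp (-θ' * |t|) * M / Real.cos θ' ^ (13 : ℝ) := by
          apply div_le_div₀ (by positivity) _ (by positivity) hcos
          exact mul_le_mul_of_nonneg_left hmax (Real.exp_pos _).le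
      _ = _ := by rw [hG0, neg_mul]; ring
  have gP : ‖(1 / ((2 * Real.pi * b : ℝ) * cexp (θ * I))) ^ ((x : ℂ) + t * I)‖ ≤
      Real.exp (Θ * |t|) := by
    rw [pw hθ2 hb]
    have e3 : ((x : ℂ) + t * I).re = x := by simp
    have e4 : ((x : ℂ) + t * I).im = t := by simp
    rw [e3, e4]
    have h5 : (1 / (2 * Real.pi * b)) ^ x ≤ 1 := by
      apply Real.rpow_le_one (by positivity)
      · rw [div_le_one (by positivity)]
        nlinarith [Real.pi_gt_three]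
      · linarith
    have h6 : Real.exp (θ * t) ≤ Real.exp (Θ * |t|) := by
      apply Real.exp_le_exp.2
      calc θ * t ≤ |θ * t| := le_abs_self _
        _ = |θ| * |t| := abs_mul _ _
        _ ≤ _ := by gcongr
    calc _ ≤ 1 * Real.exp (Θ * |t|) := mul_le_mul h5 h6 (Real.exp_pos _).le zero_le_one
      _ = _ := one_mul _
  have gL : ‖L ((x : ℂ) + t * I - ((c3 : ℂ) + τ * I))‖ ≤
      |CL| * Real.exp ((Real.pi - 2 * Θ) / 4 * |τ|) * Real.exp ((Real.pi - 2 * Θ) / 4 * |t|) := by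
    have e5 : ((x : ℂ) + t * I - ((c3 : ℂ) + τ * I)).re = s.re + 1 / 2 := by simp [hx]; ring
    have e6 : ((x : ℂ) + t * I - ((c3 : ℂ) + τ * I)).im = t - τ := by simp
    have h := hg ((x : ℂ) + t * I - ((c3 : ℂ) + τ * I)) (by rw [e5]; linarith) (by rw [e5]; linarith)
    rw [e6] at h
    refine h.trans ?_
    calc CL * Real.exp ((Real.pi - 2 * Θ) / 4 * |t - τ|) ≤ |CL| * Real.exp ((Real.pi - 2 * Θ) / 4 * |t - τ|) := by
          gcongr; exact le_abs_self _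
      _ ≤ |CL| * (Real.exp ((Real.pi - 2 * Θ) / 4 * |τ|) * Real.exp ((Real.pi - 2 * Θ) / 4 * |t|)) := by
          gcongr
          rw [← Real.exp_add]
          apply Real.exp_le_exp.2
          have h6 := mul_le_mul_of_nonneg_left (abs_sub t τ) (by linarith : (0:ℝ) ≤ (Real.pi - 2 * Θ) / 4)
          linarith
      _ = _ := by ring
  unfold HH
  rw [e1, norm_mul, norm_mul]
  calc _ ≤ (G0 * Real.exp (-(θ' * |t|))) * Real.exp (Θ * |t|) *
        (|CL| * Real.exp ((Real.pi - 2 * Θ) / 4 * |τ|) * Real.exp ((Real.pi - 2 * Θ) / 4 * |t|)) := by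
        gcongr
    _ = G0 * (|CL| * Real.exp ((Real.pi - 2 * Θ) / 4 * |τ|)) *
        (Real.exp (-(θ' * |t|)) * Real.exp (Θ * |t|) * Real.exp ((Real.pi - 2 * Θ) / 4 * |t|)) := by ring
    _ ≤ G0 * (|CL| * Real.exp ((Real.pi - 2 * Θ) / 4 * |τ|)) * 1 := by
        gcongr
        rw [← Real.exp_add, ← Real.exp_add]
        apply Real.exp_le_one_iff.2
        have : -(θ' * |t|) + Θ * |t| + (Real.pi - 2 * Θ) / 4 * |t| =
            -((Real.pi - 2 * Θ) / 8 * |t|) := by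
          rw [hθ']; ring
        rw [this]
        have := abs_nonneg t
        have : 0 ≤ (Real.pi - 2 * Θ) / 8 * |t| := by positivity
        linarith
    _ = _ := mul_one _

/-- Mellin-Plancherel bound for one exponential sum -/
theorem mp {C : ℝ} (hC : 0 < C)
    (hG : ∀ x y : ℝ, 1 ≤ x → x ≤ 11 →
      ‖Gamma ((x : ℂ) + y * I)‖ ^ 2 ≤ C * (1 + |y|) ^ 22 * Real.exp (-(Real.pi * |y|)))
    {a : ℕ → ℝ} {L : ℂ → ℂ} {c3 σ u0 CL θ τ Θ : ℝ} {b : ℕ} (h1 : 1 ≤ c3) (h2 : c3 ≤ 10) (h3 : 1 / 2 < σ)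
    (h4 : σ ≤ 1) (hu : 0 < u0) (hb : 0 < b) (ha0 : a 0 = 0) (ha : ∀ n, |a n| ≤ n)
    (hL : DifferentiableOn ℂ L {s | 1 / 2 < s.re})
    (hg : ∀ s : ℂ, σ ≤ s.re → s.re ≤ 3 →
      ‖L s‖ ≤ CL * Real.exp ((Real.pi - 2 * Θ) / 4 * |s.im|))
    (hLs : ∀ s : ℂ, 2 < s.re → L s = ∑' n : ℕ, (a n : ℂ) * (n : ℂ) ^ (-s)) (hΘ0 : th0 ≤ Θ)
    (hΘ : Θ < Real.pi / 2) (hθ : |θ| ≤ Θ) :
    ∫⁻ u in Ioi u0, ‖es (co a c3 τ) ((2 * Real.pi * b : ℝ) * cexp (θ * I)) u‖ₑ ^ 2 *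
        ENNReal.ofReal (u ^ (2 * σ)) ≤
      ENNReal.ofReal (u0 ^ (1 - 2 * c3)) *
        (ENNReal.ofReal (C * (b : ℝ) ^ (-(2 * (c3 + σ))) *
          ((1 + |τ|) ^ 22 * Real.exp (Real.pi / 8 * |τ|))) *
        ∫⁻ y : ℝ, ‖L (σ + y * I)‖ₑ ^ 2 * ENNReal.ofReal (wt Θ y)) := by
  have hb0 : (0:ℝ) < b := by exact_mod_cast hb
  set ω : ℂ := (2 * Real.pi * b : ℝ) * cexp (θ * I) with hω
  have hωre : 0 < ω.re := om_re (lt_of_le_of_lt hθ hΘ) hb
  have hω0 : ω ≠ 0 := by intro h; rw [h] at hωre; simp at hωre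
  refine (to_kk a ω c3 τ σ u0 h1 hu).trans (mul_le_mul_right ?_ _)
  by_cases hJ : ∫⁻ y : ℝ, ‖L (σ + y * I)‖ₑ ^ 2 * ENNReal.ofReal (wt Θ y) = ⊤
  · rw [hJ, ENNReal.mul_top]
    · exact le_top
    · rw [ne_eq, ENNReal.ofReal_eq_zero, not_le]
      positivity
  · have hfin := HH_int (τ := τ) hC hG h1 h2 h3 h4 hΘ0 hΘ hθ hb L
    rw [← hω] at hfin
    have hlt := hfin.trans_lt (ENNReal.mul_lt_top ENNReal.ofReal_lt_top (lt_top_iff_ne_top.2 hJ))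
    obtain ⟨B, hB⟩ := HH_bdd (L := L) (τ := τ) h1 h2 h3 hΘ0 hΘ hθ hb hg
    rw [← hω] at hB
    have hst := Pool.Agent.TH270.MS.PW.strip (k := kk a ω c3 τ) (H := HH L ω c3 τ) (a := 3 / 2)
      (δ := σ - 1 / 2) (by linarith) (by linarith)
      (kk_mellin (s := ((3 / 2 + 1 : ℝ) : ℂ)) hωre h1 h2 ha0 ha hLs (by simp)).1
      (fun s hs => (kk_mellin hωre h1 h2 ha0 ha hLs hs).2)
      (fun s hs => HH_diff hω0 h1 hL hs) hB hlt
    exact hst.trans hfin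

lemma AA_eq {a : ℕ → ℝ} {b : ℕ} {R c3 θ : ℝ} {u : ℝ} (hb : 0 < b) (hR : 0 < R) (h1 : 1 ≤ c3)
    (h2 : c3 ≤ 10) (ha0 : a 0 = 0) (ha : ∀ n, |a n| ≤ n) (hθ : |θ| < Real.pi / 2) (hu : 0 < u) :
    2 * Real.pi * AA a b R (ray θ u) =
      ∫ y, qq b R c3 y * (es (co a c3 (2 * y)) ((2 * Real.pi * b : ℝ) * cexp (θ * I)) u *
        es (co a c3 (2 * y)) ((2 * Real.pi * b : ℝ) * cexp ((-θ : ℝ) * I)) u) := by
  set ω : ℂ := (2 * Real.pi * b : ℝ) * cexp (θ * I) with hω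
  set ω' : ℂ := (2 * Real.pi * b : ℝ) * cexp ((-θ : ℝ) * I) with hω'
  have hr : 0 < ω.re := om_re hθ hb
  have hr' : 0 < ω'.re := om_re (by rwa [abs_neg]) hb
  have hs := hasSum_integral_of_summable_integral_norm
    (fun m => (PP_main (ω := ω) (ω' := ω') (u := u) hb hR h1 ha0 m).1)
    (PP_summable (b := b) (R := R) h2 ha0 ha hr hr' hu)
  have hmain := hs.tsum_eq
  simp only [PP_sum h2 ha0 ha hr hr' hu] at hmain
  rw [← hmain]
  simp only [(PP_main (ω := ω) (ω' := ω') (u := u) hb hR h1 ha0 _).2]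
  rw [tsum_mul_left]
  congr 1
  unfold AA
  apply tsum_congr
  intro m
  congr 1
  rw [← Complex.exp_add]
  congr 1
  have e1 : (starRingEnd ℂ) (ray θ u) = u * cexp ((-θ : ℝ) * I) := by
    unfold ray
    rw [map_mul, Complex.conj_ofReal, ← Complex.exp_conj, map_mul, Complex.conj_ofReal, Complex.conj_I]
    congr 2
    push_cast
    ring
  rw [e1, hω, hω']
  unfold ray
  push_cast
  ring

lemma AA_le {a : ℕ → ℝ} {b : ℕ} {R c3 θ : ℝ} {u : ℝ} (hb : 0 < b) (hR : 0 < R) (h1 : 1 ≤ c3)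
    (h2 : c3 ≤ 10) (ha0 : a 0 = 0) (ha : ∀ n, |a n| ≤ n) (hθ : |θ| < Real.pi / 2) (hu : 0 < u) :
    ‖AA a b R (ray θ u)‖ₑ ≤
      ∫⁻ y, ‖qq b R c3 y‖ₑ *
        (‖es (co a c3 (2 * y)) ((2 * Real.pi * b : ℝ) * cexp (θ * I)) u‖ₑ ^ 2 +
        ‖es (co a c3 (2 * y)) ((2 * Real.pi * b : ℝ) * cexp ((-θ : ℝ) * I)) u‖ₑ ^ 2) := by
  have h := AA_eq hb hR h1 h2 ha0 ha hθ hu
  have h3 : ‖AA a b R (ray θ u)‖ₑ ≤ ‖2 * (Real.pi : ℂ) * AA a b R (ray θ u)‖ₑ := by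
    rw [← ofReal_norm, ← ofReal_norm]
    apply ENNReal.ofReal_le_ofReal
    rw [norm_mul]
    have : (1:ℝ) ≤ ‖2 * (Real.pi : ℂ)‖ := by
      rw [norm_mul, Complex.norm_real, Real.norm_of_nonneg Real.pi_pos.le]
      norm_num
      linarith [Real.pi_gt_three]
    exact le_mul_of_one_le_left (norm_nonneg _) this
  refine h3.trans ?_
  rw [h]
  refine (enorm_integral_le_lintegral_enorm _).trans ?_
  apply lintegral_mono
  intro y
  simp only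
  rw [enorm_mul, enorm_mul]
  exact mul_le_mul_right (en_mul_le _ _) _

/-- H5: T5 with an arbitrary angle `θ ∈ [th0, π/2)`, the constant does not depend on `θ` -/
theorem H5 (c3 : ℝ) (h1 : 1 ≤ c3) (h2 : c3 ≤ 10) : ∃ C : ℝ, 0 < C ∧
    ∀ (a : ℕ → ℝ) (L : ℂ → ℂ) (σ R u0 CL θ : ℝ) (b : ℕ), 1 / 2 < σ → σ ≤ 1 → 0 < R → 0 < u0 →
      0 < b → th0 ≤ θ → θ < Real.pi / 2 →
      a 0 = 0 → (∀ n, |a n| ≤ n) → DifferentiableOn ℂ L {s | 1 / 2 < s.re} →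
      (∀ s : ℂ, σ ≤ s.re → s.re ≤ 3 →
        ‖L s‖ ≤ CL * Real.exp ((Real.pi - 2 * θ) / 4 * |s.im|)) →
      (∀ s : ℂ, 2 < s.re → L s = ∑' n : ℕ, (a n : ℂ) * (n : ℂ) ^ (-s)) →
      ∫⁻ u in Set.Ioi u0, ‖AA a b R (ray θ u)‖ₑ * ENNReal.ofReal (u ^ (2 * σ)) ≤
        ENNReal.ofReal (C * R ^ (-c3) * u0 ^ (1 - 2 * c3) * (b : ℝ) ^ (-(2 * σ))) *
          ∫⁻ y : ℝ, ‖L (σ + y * I)‖ₑ ^ 2 *
            ENNReal.ofReal ((1 + |y|) ^ 24 * Real.exp (-((Real.pi - 2 * θ) * |y|))) := by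
  obtain ⟨C, hC, hG⟩ := gamma_bound
  set W : ℝ≥0∞ := ∫⁻ y : ℝ, ENNReal.ofReal (‖Gamma (((c3 / 2 : ℝ) : ℂ) + y * I)‖ *
      ((1 + |2 * y|) ^ 22 * Real.exp (Real.pi / 8 * |2 * y|))) with hW
  have hWlt : W < ⊤ := gam_fin h1
  refine ⟨2 * C * (W.toReal + 1), by positivity, ?_⟩
  intro a L σ R u0 CL θ b h3 h4 hR hu hb hΘ0 hΘ ha0 ha hL hg hLs
  have hb0 : (0:ℝ) < b := by exact_mod_cast hb
  have hpi := Real.pi_pos
  have hA0 : 0 < Ac b R := by unfold Ac; positivity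
  set J : ℝ≥0∞ := ∫⁻ y : ℝ, ‖L (σ + y * I)‖ₑ ^ 2 *
            ENNReal.ofReal ((1 + |y|) ^ 24 * Real.exp (-((Real.pi - 2 * θ) * |y|))) with hJ
  set ω : ℂ := (2 * Real.pi * b : ℝ) * cexp (θ * I) with hω
  set ω' : ℂ := (2 * Real.pi * b : ℝ) * cexp ((-θ : ℝ) * I) with hω'
  have hθ : |θ| ≤ θ := (abs_of_pos (lt_of_lt_of_le th0_pos hΘ0)).le
  have hθ' : |(-θ)| ≤ θ := by rw [abs_neg]; exact hθ
  have hθ2 : |θ| < Real.pi / 2 := lt_of_le_of_lt hθ hΘ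
  have hr : 0 < ω.re := om_re hθ2 hb
  have hr' : 0 < ω'.re := om_re (lt_of_le_of_lt hθ' hΘ) hb
  set F : ℝ → ℝ → ℝ≥0∞ := fun u y => ‖qq b R c3 y‖ₑ *
    (‖es (co a c3 (2 * y)) ω u‖ₑ ^ 2 + ‖es (co a c3 (2 * y)) ω' u‖ₑ ^ 2) *
      ENNReal.ofReal (u ^ (2 * σ)) with hF
  have hFm : AEMeasurable (Function.uncurry F) ((volume.restrict (Ioi u0)).prod volume) := by
    have m1 := es_meas (u0 := u0) h2 ha0 ha hr hu
    have m2 := es_meas (u0 := u0) h2 ha0 ha hr' hu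
    have m3 : Measurable (fun p : ℝ × ℝ => ‖qq b R c3 p.2‖ₑ) := (qq_meas b R c3 hb hR h1).comp measurable_snd
    have m4 : Measurable (fun p : ℝ × ℝ => ENNReal.ofReal (p.1 ^ (2 * σ))) :=
      (ENNReal.measurable_ofReal.comp ((measurable_id.pow_const _).comp measurable_fst))
    exact (m3.aemeasurable.mul ((m1.enorm.pow_const 2).add (m2.enorm.pow_const 2))).mul m4.aemeasurable
  have step : ∀ y : ℝ, ∫⁻ u in Ioi u0, F u y ≤
      ENNReal.ofReal (Ac b R ^ (c3 / 2) * u0 ^ (1 - 2 * c3) * (2 * C * (b : ℝ) ^ (-(2 * (c3 + σ))))) * J *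
      ENNReal.ofReal (‖Gamma (((c3 / 2 : ℝ) : ℂ) + y * I)‖ *
      ((1 + |2 * y|) ^ 22 * Real.exp (Real.pi / 8 * |2 * y|))) := by
    intro y
    have i1 := mp (θ := θ) (τ := 2 * y) hC hG h1 h2 h3 h4 hu hb ha0 ha hL hg hLs hΘ0 hΘ hθ
    have i2 := mp (θ := -θ) (τ := 2 * y) hC hG h1 h2 h3 h4 hu hb ha0 ha hL hg hLs hΘ0 hΘ hθ'
    rw [← hω] at i1
    rw [← hω'] at i2
    have e1 : ∫⁻ u in Ioi u0, F u y = ‖qq b R c3 y‖ₑ *
        ((∫⁻ u in Ioi u0, ‖es (co a c3 (2 * y)) ω u‖ₑ ^ 2 * ENNReal.ofReal (u ^ (2 * σ))) +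
        ∫⁻ u in Ioi u0, ‖es (co a c3 (2 * y)) ω' u‖ₑ ^ 2 * ENNReal.ofReal (u ^ (2 * σ))) := by
      have m1 : AEMeasurable (fun u : ℝ => ‖es (co a c3 (2 * y)) ω u‖ₑ ^ 2 * ENNReal.ofReal (u ^ (2 * σ)))
          (volume.restrict (Ioi u0)) := by
        refine AEMeasurable.mul (f := fun u : ℝ => ‖es (co a c3 (2 * y)) ω u‖ₑ ^ 2)
          (g := fun u : ℝ => ENNReal.ofReal (u ^ (2 * σ))) ?_ ?_
        · refine AEMeasurable.pow_const (AEMeasurable.enorm ?_) 2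
          refine aemeasurable_of_tendsto_metrizable_ae atTop
            (f := fun (N : ℕ) (u : ℝ) => ∑ m ∈ Finset.range N, co a c3 (2 * y) m * cexp (-(ω * m * u)))
            (fun N => ?_) ?_
          · exact Continuous.aemeasurable (by fun_prop)
          · filter_upwards [ae_restrict_mem measurableSet_Ioi] with u hu'
            exact (es_summable hr (co_norm' a c3 (2 * y) h2 ha0 ha)
              (hu.trans hu')).of_norm.hasSum.tendsto_sum_nat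
        · exact (ENNReal.measurable_ofReal.comp (measurable_id.pow_const _)).aemeasurable
      rw [← lintegral_add_left' m1, ← lintegral_const_mul' _ _ enorm_ne_top]
      refine lintegral_congr fun u => ?_
      simp only [hF]
      ring
    rw [e1]
    have hJ' : ∫⁻ y : ℝ, ‖L (σ + y * I)‖ₑ ^ 2 * ENNReal.ofReal (wt θ y) = J := rfl
    rw [hJ'] at i1 i2
    calc _ ≤ ‖qq b R c3 y‖ₑ * (ENNReal.ofReal (u0 ^ (1 - 2 * c3)) *
        (ENNReal.ofReal (C * (b : ℝ) ^ (-(2 * (c3 + σ))) *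
          ((1 + |2 * y|) ^ 22 * Real.exp (Real.pi / 8 * |2 * y|))) * J) +
          ENNReal.ofReal (u0 ^ (1 - 2 * c3)) *
        (ENNReal.ofReal (C * (b : ℝ) ^ (-(2 * (c3 + σ))) *
          ((1 + |2 * y|) ^ 22 * Real.exp (Real.pi / 8 * |2 * y|))) * J)) :=
          mul_le_mul_right (add_le_add i1 i2) _
      _ = (‖qq b R c3 y‖ₑ * (ENNReal.ofReal (u0 ^ (1 - 2 * c3)) *
        ENNReal.ofReal (C * (b : ℝ) ^ (-(2 * (c3 + σ))) *
          ((1 + |2 * y|) ^ 22 * Real.exp (Real.pi / 8 * |2 * y|))) * 2)) * J := by ring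
      _ = _ := by
          rw [mul_right_comm _ J]
          congr 1
          rw [← ofReal_norm, qq_norm hb hR, show (2 : ℝ≥0∞) = ENNReal.ofReal 2 by simp,
            ← ENNReal.ofReal_mul (by positivity), ← ENNReal.ofReal_mul (by positivity),
            ← ENNReal.ofReal_mul (by positivity), ← ENNReal.ofReal_mul (by positivity)]
          congr 1
          ring
  calc ∫⁻ u in Set.Ioi u0, ‖AA a b R (ray θ u)‖ₑ * ENNReal.ofReal (u ^ (2 * σ))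
      ≤ ∫⁻ u in Ioi u0, ∫⁻ y, F u y := by
        refine setLIntegral_mono' measurableSet_Ioi fun u hu' => ?_
        have h := AA_le (u := u) hb hR h1 h2 ha0 ha hθ2 (hu.trans hu')
        simp only [hF]
        rw [lintegral_mul_const' _ _ ENNReal.ofReal_ne_top]
        exact mul_le_mul_left h _
    _ = ∫⁻ y, ∫⁻ u in Ioi u0, F u y := lintegral_lintegral_swap hFm
    _ ≤ ∫⁻ y : ℝ, ENNReal.ofReal (Ac b R ^ (c3 / 2) * u0 ^ (1 - 2 * c3) *
        (2 * C * (b : ℝ) ^ (-(2 * (c3 + σ))))) * J *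
      ENNReal.ofReal (‖Gamma (((c3 / 2 : ℝ) : ℂ) + y * I)‖ *
      ((1 + |2 * y|) ^ 22 * Real.exp (Real.pi / 8 * |2 * y|))) := lintegral_mono step
    _ = ENNReal.ofReal (Ac b R ^ (c3 / 2) * u0 ^ (1 - 2 * c3) *
        (2 * C * (b : ℝ) ^ (-(2 * (c3 + σ))))) * J * W := by
        rw [hW, lintegral_const_mul'']
        refine (Measurable.aemeasurable ?_)
        apply ENNReal.measurable_ofReal.comp
        apply Continuous.measurable
        have hn : Continuous (fun y : ℝ => ‖Gamma (((c3 / 2 : ℝ) : ℂ) + y * I)‖) :=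
          (Pool.Agent.H402R2.T4b.Gamma_line_cont (c := c3 / 2) (by linarith)).norm
        have hn2 : Continuous (fun y : ℝ => (1 + |2 * y|) ^ 22 * Real.exp (Real.pi / 8 * |2 * y|)) := by
          fun_prop
        exact hn.mul hn2
    _ ≤ ENNReal.ofReal (Ac b R ^ (c3 / 2) * u0 ^ (1 - 2 * c3) *
        (2 * C * (b : ℝ) ^ (-(2 * (c3 + σ))))) * J * ENNReal.ofReal (W.toReal + 1) := by
        apply mul_le_mul_right
        calc W = ENNReal.ofReal W.toReal := (ENNReal.ofReal_toReal hWlt.ne).symm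
          _ ≤ _ := ENNReal.ofReal_le_ofReal (by linarith)
    _ ≤ _ := by
        rw [mul_right_comm, ← ENNReal.ofReal_mul (by positivity)]
        refine mul_le_mul_left (ENNReal.ofReal_le_ofReal ?_) _
        have hAc : Ac b R ^ (c3 / 2) ≤ (b : ℝ) ^ (2 * c3) * R ^ (-c3) := by
          unfold Ac
          have e2 : (b : ℝ) ^ 4 / (Real.pi * R ^ 2) = ((b : ℝ) ^ 2 * R⁻¹) ^ 2 * Real.pi⁻¹ := by
            field_simp
          rw [e2, Real.mul_rpow (by positivity) (by positivity)]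
          have e3 : (((b : ℝ) ^ 2 * R⁻¹) ^ 2) ^ (c3 / 2) = (b : ℝ) ^ (2 * c3) * R ^ (-c3) := by
            rw [← Real.rpow_natCast, ← Real.rpow_mul (by positivity)]
            have : ((2 : ℕ) : ℝ) * (c3 / 2) = c3 := by push_cast; ring
            rw [this, Real.mul_rpow (by positivity) (by positivity), ← Real.rpow_natCast (b : ℝ) 2,
              ← Real.rpow_mul hb0.le, Real.inv_rpow hR.le, Real.rpow_neg hR.le]
            push_cast
            ring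
          rw [e3]
          apply mul_le_of_le_one_right (by positivity)
          apply Real.rpow_le_one (by positivity)
          · apply inv_le_one_of_one_le₀; linarith [Real.pi_gt_three]
          · linarith
        have e4 : (b : ℝ) ^ (2 * c3) * (b : ℝ) ^ (-(2 * (c3 + σ))) = (b : ℝ) ^ (-(2 * σ)) := by
          rw [← Real.rpow_add hb0]; congr 1; ring
        calc Ac b R ^ (c3 / 2) * u0 ^ (1 - 2 * c3) * (2 * C * (b : ℝ) ^ (-(2 * (c3 + σ)))) *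
              (W.toReal + 1)
            ≤ ((b : ℝ) ^ (2 * c3) * R ^ (-c3)) * u0 ^ (1 - 2 * c3) *
              (2 * C * (b : ℝ) ^ (-(2 * (c3 + σ)))) * (W.toReal + 1) := by gcongr
          _ = 2 * C * (W.toReal + 1) * R ^ (-c3) * u0 ^ (1 - 2 * c3) *
              ((b : ℝ) ^ (2 * c3) * (b : ℝ) ^ (-(2 * (c3 + σ)))) := by ring
          _ = _ := by rw [e4]


end Pool.Agent.Y812.QTH5
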