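import Pool.Agent.Y812.LK.B

/-!
# Many abc points over a number field (job 307)

There are at least `X ^ (2 / 3 - δ)` points `x` of `K` with `N(sp x) ≤ X`.
-/

set_option autoImplicit false

namespace Pool.Agent.Y812.LK

open Finset NumberField IsDedekindDomain Pool.Agent.H691R3 Pool.Agent.TH876.Loc Pool.Agent.TH876.KR

section
variable (K : Type) [Field K] [NumberField K]

/-- the index type of an integral basis -/
abbrev Ix : Type := Module.Free.ChooseBasisIndex ℤ (𝓞 K)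

theorem card_Ix : Fintype.card (Ix K) = Module.finrank ℚ K := by
  rw [← RingOfIntegers.rank, Module.finrank_eq_card_basis (RingOfIntegers.basis K)]

/-- the integer with given coordinates -/
noncomputable def elt (f : Ix K → ℤ) : 𝓞 K := ∑ i, f i • RingOfIntegers.basis K i

theorem elt_inj : Function.Injective (elt K) := by
  intro f g h
  have h1 : (RingOfIntegers.basis K).equivFun.symm f = (RingOfIntegers.basis K).equivFun.symm g := by
    rw [Module.Basis.equivFun_symm_apply, Module.Basis.equivFun_symm_apply]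
    exact h
  exact (RingOfIntegers.basis K).equivFun.symm.injective h1

theorem elt_add (f g : Ix K → ℤ) : elt K f + elt K g = elt K (f + g) := by
  unfold elt
  rw [← Finset.sum_add_distrib]
  exact Finset.sum_congr rfl fun i _ => by rw [Pi.add_apply, add_smul]

theorem elt_ne {f : Ix K → ℤ} (h : ∀ i, 1 ≤ f i) : elt K f ≠ 0 := by
  have h0 : elt K 0 = 0 := by
    unfold elt
    exact Finset.sum_eq_zero fun i _ => by rw [Pi.zero_apply, zero_smul]
  intro h1
  have h2 : f = 0 := elt_inj K (h1.trans h0.symm)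
  have hpos : 0 < Fintype.card (Ix K) := by rw [card_Ix]; exact Module.finrank_pos
  obtain ⟨i⟩ := Fintype.card_pos_iff.1 hpos
  have h3 := h i
  rw [h2, Pi.zero_apply] at h3
  omega

/-- the constant -/
noncomputable def hs : ℝ := ∑ i, house ((RingOfIntegers.basis K i : 𝓞 K) : K)

theorem hs_nonneg : 0 ≤ hs K := Finset.sum_nonneg fun _ _ => house_nonneg _

theorem elt_house {f : Ix K → ℤ} {n : ℕ} (h : ∀ i, 1 ≤ f i ∧ f i ≤ n) :
    house ((elt K f : 𝓞 K) : K) ≤ hs K * n := by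
  have e : ((elt K f : 𝓞 K) : K) = ∑ i, ((f i : ℤ) : K) * ((RingOfIntegers.basis K i : 𝓞 K) : K) := by
    unfold elt
    show algebraMap (𝓞 K) K _ = _
    rw [map_sum]
    refine Finset.sum_congr rfl fun i _ => ?_
    rw [zsmul_eq_mul, map_mul, map_intCast]
  rw [e]
  refine (house_sum_le_sum_house _ _).trans ?_
  unfold hs
  rw [Finset.sum_mul]
  refine Finset.sum_le_sum fun i _ => ?_
  refine (house_mul_le _ _).trans ?_
  rw [mul_comm (house ((RingOfIntegers.basis K i : 𝓞 K) : K))]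
  refine mul_le_mul_of_nonneg_right ?_ (house_nonneg _)
  rw [house_intCast]
  have h1 := h i
  have h2 : |f i| ≤ (n : ℤ) := by rw [abs_le]; constructor <;> omega
  exact_mod_cast h2

/-- the box -/
noncomputable def box (n : ℕ) : Finset (𝓞 K) :=
  (Fintype.piFinset fun _ : Ix K => Finset.Icc (1 : ℤ) n).map ⟨elt K, elt_inj K⟩

theorem card_box (n : ℕ) : (box K n).card = n ^ Module.finrank ℚ K := by
  unfold box
  rw [Finset.card_map, Fintype.card_piFinset, Finset.prod_const, Finset.card_univ, card_Ix,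
    Int.card_Icc]
  congr 1
  omega

theorem mem_box {n : ℕ} {a : 𝓞 K} (h : a ∈ box K n) :
    ∃ f : Ix K → ℤ, (∀ i, 1 ≤ f i ∧ f i ≤ n) ∧ a = elt K f := by
  obtain ⟨f, hf, rfl⟩ := Finset.mem_map.1 h
  rw [Fintype.mem_piFinset] at hf
  exact ⟨f, fun i => Finset.mem_Icc.1 (hf i), rfl⟩

end

end Pool.Agent.Y812.LK

namespace Pool.Agent.Y812

open Finset NumberField IsDedekindDomain Pool.Agent.H691R3 Pool.Agent.TH876.Loc

open Pool.Agent.Y812.LK in
theorem lower_pointsK (K : Type) [Field K] [NumberField K] (δ : ℝ) (hδ : 0 < δ) :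
    ∃ X0 : ℝ, 1 ≤ X0 ∧ ∀ X : ℝ, X0 ≤ X → ∃ F : Finset K, (∀ x ∈ F, Pt x ∧ nn (sp x) ≤ X) ∧
      X ^ (2 / 3 - δ) ≤ (F.card : ℝ) := by
  classical
  have hd : 0 < Module.finrank ℚ K := Module.finrank_pos
  set d := Module.finrank ℚ K with hdd
  have hd0 : (0 : ℝ) < d := by exact_mod_cast hd
  obtain ⟨C, hC, hD⟩ := D_bound K (3 * d * δ / 2) (by positivity)
  obtain ⟨M, hM⟩ := exists_nat_ge (2 * (hs K + 1))
  have hs0 := hs_nonneg K
  have hM1 : (1 : ℝ) ≤ M := by linarith
  have hM0 : (0 : ℝ) < M := by linarith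
  refine ⟨max (max 1 ((M : ℝ) ^ (3 * d))) (((2 * M : ℝ) ^ (2 * d) * C) ^ (2 / δ)),
    le_max_of_le_left (le_max_left _ _), fun X hX => ?_⟩
  have hX1 : 1 ≤ X := (le_max_of_le_left (le_max_left _ _)).trans hX
  have hX2 : (M : ℝ) ^ (3 * d) ≤ X := (le_max_of_le_left (le_max_right _ _)).trans hX
  have hX3 : ((2 * M : ℝ) ^ (2 * d) * C) ^ (2 / δ) ≤ X := (le_max_right _ _).trans hX
  have hX0 : 0 < X := by linarith
  set L : ℝ := X ^ ((1 : ℝ) / (3 * d)) with hL
  have hL0 : 0 < L := Real.rpow_pos_of_pos hX0 _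
  have hLX : L ^ (3 * d) = X := by
    rw [hL, ← Real.rpow_natCast, ← Real.rpow_mul hX0.le]
    have : (1 : ℝ) / (3 * d) * ((3 * d : ℕ) : ℝ) = 1 := by push_cast; field_simp
    rw [this, Real.rpow_one]
  have hML : (M : ℝ) ≤ L := by
    rw [← hLX] at hX2
    exact (pow_le_pow_iff_left₀ hM0.le hL0.le (by positivity)).1 hX2
  have hLM : 1 ≤ L / M := by rw [le_div_iff₀ hM0]; linarith
  set n : ℕ := ⌊L / M⌋₊ with hn
  have hn1 : 1 ≤ n := by
    rw [hn]
    exact (Nat.one_le_floor_iff _).2 hLM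
  have hnle : (n : ℝ) ≤ L / M := Nat.floor_le (by positivity)
  have hnge : L / (2 * M) ≤ n := by
    have h1 : L / M < n + 1 := Nat.lt_floor_add_one _
    have h2 : (1 : ℝ) ≤ n := by exact_mod_cast hn1
    have h3 : L / (2 * M) = L / M / 2 := by field_simp
    rw [h3]
    linarith
  set T : ℝ := (hs K + 1) * n with hT
  have hn1' : (1 : ℝ) ≤ n := by exact_mod_cast hn1
  have hT1 : 1 ≤ T := by
    rw [hT]
    nlinarith
  have hTL : 2 * T ≤ L := by
    have h1 : (n : ℝ) * M ≤ L := by rwa [le_div_iff₀ hM0] at hnle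
    rw [hT]
    nlinarith
  set B := box K n with hB
  have hB1 : ∀ a ∈ B, a ≠ 0 ∧ house (a : K) ≤ T := by
    intro a ha
    obtain ⟨f, hf, rfl⟩ := mem_box K ha
    refine ⟨elt_ne K fun i => (hf i).1, (elt_house K hf).trans ?_⟩
    rw [hT]
    nlinarith
  have hB2 : ∀ a ∈ B, ∀ b ∈ B, a + b ≠ 0 := by
    intro a ha b hb
    obtain ⟨f, hf, rfl⟩ := mem_box K ha
    obtain ⟨g, hg, rfl⟩ := mem_box K hb
    rw [elt_add]
    refine elt_ne K fun i => ?_
    have := (hf i).1
    have := (hg i).1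
    rw [Pi.add_apply]
    omega
  set Dn : ℕ := ⌊C * T ^ (3 * d * δ / 2)⌋₊ with hDn
  have hDn' : (Dn : ℝ) ≤ C * L ^ (3 * d * δ / 2) := by
    refine (Nat.floor_le (by positivity)).trans ?_
    refine mul_le_mul_of_nonneg_left ?_ hC.le
    exact Real.rpow_le_rpow (by linarith) (by linarith) (by positivity)
  have hq := quot_count B (fun a ha => (hB1 a ha).1) Dn (fun a ha b hb => by
    rw [hDn]
    exact Nat.le_floor (hD T hT1 B hB1 a ha b hb))
  refine ⟨(B ×ˢ B).image fun p => (p.1 : K) / (p.2 : K), ?_, ?_⟩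
  · intro x hx
    obtain ⟨p, hp, rfl⟩ := Finset.mem_image.1 hx
    obtain ⟨ha, hb⟩ := Finset.mem_product.1 hp
    obtain ⟨h1, h2⟩ := sp_le (hB1 _ ha).1 (hB1 _ hb).1 (hB2 _ ha _ hb) hT1 (hB1 _ ha).2 (hB1 _ hb).2
    refine ⟨h1, h2.trans ?_⟩
    rw [← hLX, pow_mul]
    refine pow_le_pow_left₀ (by positivity) ?_ _
    calc 2 * T ^ 3 ≤ (2 * T) ^ 3 := by
          have : 0 ≤ T ^ 3 := by positivity
          nlinarith
      _ ≤ L ^ 3 := pow_le_pow_left₀ (by positivity) hTL _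
  · set N := ((B ×ˢ B).image fun p => (p.1 : K) / (p.2 : K)).card with hN
    rw [hB, card_box, ← hdd] at hq
    have h1 : (((n ^ d) ^ 2 : ℕ) : ℝ) ≤ ((N * Dn : ℕ) : ℝ) := by exact_mod_cast hq
    push_cast at h1
    have h2 : (L / (2 * M)) ^ (2 * d) ≤ (((n : ℝ) ^ d) ^ 2) := by
      rw [← pow_mul, mul_comm d 2]
      exact pow_le_pow_left₀ (by positivity) hnge _
    have h3 : (L / (2 * M)) ^ (2 * d) ≤ N * (C * L ^ (3 * d * δ / 2)) :=
      h2.trans (h1.trans (mul_le_mul_of_nonneg_left hDn' (Nat.cast_nonneg _)))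
    rw [div_pow, div_le_iff₀ (by positivity)] at h3
    have h4 : (2 * M : ℝ) ^ (2 * d) * C ≤ X ^ (δ / 2) := by
      have h5 : 0 < (2 * M : ℝ) ^ (2 * d) * C := by positivity
      have h6 := Real.rpow_le_rpow (by positivity) hX3 (by positivity : (0 : ℝ) ≤ δ / 2)
      rw [← Real.rpow_mul h5.le] at h6
      have h7 : 2 / δ * (δ / 2) = 1 := by field_simp
      rw [h7, Real.rpow_one] at h6
      exact h6
    have e1 : L ^ (2 * d) = X ^ ((2 : ℝ) / 3) := by
      rw [hL, ← Real.rpow_natCast, ← Real.rpow_mul hX0.le]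
      congr 1
      push_cast
      field_simp
    have e2 : L ^ (3 * d * δ / 2) = X ^ (δ / 2) := by
      rw [hL, ← Real.rpow_mul hX0.le]
      congr 1
      field_simp
    rw [e1, e2] at h3
    have hXd : 0 < X ^ (δ / 2) := Real.rpow_pos_of_pos hX0 _
    have h8 : X ^ ((2 : ℝ) / 3) ≤ N * X ^ δ := by
      calc X ^ ((2 : ℝ) / 3) ≤ N * (C * X ^ (δ / 2)) * (2 * M) ^ (2 * d) := h3
        _ = N * (((2 * M : ℝ) ^ (2 * d) * C) * X ^ (δ / 2)) := by ring
        _ ≤ N * (X ^ (δ / 2) * X ^ (δ / 2)) :=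
            mul_le_mul_of_nonneg_left (mul_le_mul_of_nonneg_right h4 hXd.le) (Nat.cast_nonneg _)
        _ = N * X ^ δ := by rw [← Real.rpow_add hX0]; congr 2; ring
    rw [Real.rpow_sub hX0, div_le_iff₀ (Real.rpow_pos_of_pos hX0 _)]
    exact h8

end Pool.Agent.Y812
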