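import Pool.Agent.Y728.SimulP
import Pool.Agent.Y812.WQ.Par

/-!
A single linear form in logarithms at a prime of a number field, from the simultaneous theorem.
-/

set_option autoImplicit false

namespace Pool.Agent.Y812

open Finset NumberField IsDedekindDomain Pool.Agent.H691R3 Pool.Agent.TH876.Loc Pool.Agent.Y728

variable {K : Type} [Field K] [NumberField K]

namespace WQ

theorem fv_pow_sub_one_le (u : Pr K) {y : K} (hy : fv u y = 1) (m : ℕ) :
    fv u (y ^ m - 1) ≤ fv u (y - 1) := by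
  induction m with
  | zero => simp
  | succ m ih =>
    have : y ^ (m + 1) - 1 = y * (y ^ m - 1) + (y - 1) := by ring
    rw [this]
    refine (fv_na u _ _).trans (max_le ?_ le_rfl)
    rw [map_mul, hy, one_mul]; exact ih

theorem fv_inv_sub_one (u : Pr K) {y : K} (hy : fv u y = 1) :
    fv u (y⁻¹ - 1) = fv u (y - 1) := by
  have hy0 : y ≠ 0 := by
    rintro rfl
    rw [map_zero] at hy
    exact zero_ne_one hy
  have : y⁻¹ - 1 = -((y - 1) * y⁻¹) := by field_simp; ring
  rw [this, map_neg_eq_map, map_mul, map_inv₀, hy, inv_one, mul_one]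

theorem fv_prod_zpow (u : Pr K) {n : ℕ} (q : Fin n → 𝓞 K) (c : Fin n → ℤ)
    (hq : ∀ j, fv u (q j : K) = 1) : fv u (∏ j, (q j : K) ^ (c j)) = 1 := by
  rw [map_prod]
  apply Finset.prod_eq_one
  intro j _
  rw [map_zpow₀, hq, one_zpow]

/-- The map from a subset to the exponents of the product. -/
theorem bin_inj {a : ℕ} {s t : Finset (Fin a)} (h : ∑ i ∈ s, 2 ^ (i : ℕ) = ∑ i ∈ t, 2 ^ (i : ℕ)) :
    s = t := by
  have h1 : ∀ s : Finset (Fin a), ∑ i ∈ s, 2 ^ (i : ℕ) = ∑ i ∈ s.map Fin.valEmbedding, 2 ^ i := by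
    intro s
    rw [Finset.sum_map]
    rfl
  rw [h1, h1] at h
  have h2 := Finset.geomSum_injective (n := 2) le_rfl h
  exact Finset.map_injective _ h2

theorem prod_inj {n a : ℕ} (q : Fin n → 𝓞 K) (hq0 : ∀ j, (q j : K) ≠ 0)
    (hind : ∀ b : Fin n → ℤ, ∏ j, (q j : K) ^ (b j) = 1 → b = 0) :
    Function.Injective fun A : Finset (Fin (n * a)) => ∏ x ∈ A,
      (q (finProdFinEquiv.symm x).1) ^ (2 ^ ((finProdFinEquiv.symm x).2 : ℕ)) := by
  classical
  intro A B hAB
  let E (A : Finset (Fin (n * a))) (j : Fin n) : ℕ :=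
    ∑ i ∈ (univ : Finset (Fin a)).filter (fun i => finProdFinEquiv (j, i) ∈ A), 2 ^ (i : ℕ)
  have hE : ∀ A : Finset (Fin (n * a)), ∏ x ∈ A,
      (q (finProdFinEquiv.symm x).1) ^ (2 ^ ((finProdFinEquiv.symm x).2 : ℕ))
      = ∏ j, (q j) ^ (E A j) := by
    intro A
    have h1 : ∏ x ∈ A, (q (finProdFinEquiv.symm x).1) ^ (2 ^ ((finProdFinEquiv.symm x).2 : ℕ))
        = ∏ x : Fin (n * a), if x ∈ A then
          (q (finProdFinEquiv.symm x).1) ^ (2 ^ ((finProdFinEquiv.symm x).2 : ℕ)) else 1 := by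
      rw [Finset.prod_ite_mem, Finset.univ_inter]
    rw [h1, ← Equiv.prod_comp finProdFinEquiv, Fintype.prod_prod_type]
    apply Finset.prod_congr rfl
    intro j _
    simp only [Equiv.symm_apply_apply]
    rw [← Finset.prod_filter, Finset.prod_pow_eq_pow_sum]
  have h1 : ∏ j, (q j) ^ (E A j) = ∏ j, (q j) ^ (E B j) := by
    rw [← hE, ← hE]; exact hAB
  have h2 : ∏ j, (q j : K) ^ (E A j) = ∏ j, (q j : K) ^ (E B j) := by
    have := congrArg (algebraMap (𝓞 K) K) h1
    simpa only [map_prod, map_pow] using this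
  have h3 : ∏ j, (q j : K) ^ ((E A j : ℤ) - (E B j : ℤ)) = 1 := by
    have : ∀ j, (q j : K) ^ ((E A j : ℤ) - (E B j : ℤ)) = (q j : K) ^ (E A j) / (q j : K) ^ (E B j) := by
      intro j
      rw [zpow_sub₀ (hq0 j), zpow_natCast, zpow_natCast]
    simp only [this]
    rw [Finset.prod_div_distrib, h2]
    apply div_self
    exact Finset.prod_ne_zero_iff.2 fun j _ => pow_ne_zero _ (hq0 j)
  have h4 := hind _ h3
  ext x
  obtain ⟨⟨j, i⟩, rfl⟩ := finProdFinEquiv.surjective x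
  have h5 : E A j = E B j := by
    have := congrFun h4 j
    simp only [Pi.zero_apply] at this
    omega
  have h6 := bin_inj h5
  have h7 := Finset.ext_iff.1 h6 i
  simpa using h7

end WQ

open WQ

/-- The positive case. -/
theorem weakQ_pos (K : Type) [Field K] [NumberField K] : ∃ κ : ℕ, ∀ (u : Pr K) (n h S M : ℕ)
    (q : Fin n → 𝓞 K) (c : Fin n → ℤ), 1 ≤ n → 1 ≤ h → 1 ≤ S → pv u ≤ 2 ^ h →
    (∀ j, house (q j : K) ≤ 2 ^ h) → (∀ j, fv u (q j : K) = 1) →
    (∀ b : Fin n → ℤ, ∏ j, (q j : K) ^ (b j) = 1 → b = 0) → (∃ j, 0 < c j) →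
    (∀ j, |c j| ≤ 2 ^ S) →
    fv u (∏ j, (q j : K) ^ (c j) - 1) ≤ fv u ((pv u : ℕ) : K) ^ M →
    M ≤ 2 ^ (κ * (n * h) ^ 3) * (S + 1) ^ (κ * n) := by
  classical
  obtain ⟨c0, hsim⟩ := simulP K
  obtain ⟨κ, hκ⟩ := par (Module.finrank ℚ K) c0
  refine ⟨κ, ?_⟩
  intro u n h S M q c hn hh hS hph hhouse hq1 hind hcpos hcS hsmall
  obtain ⟨j0, hj0⟩ := hcpos
  obtain ⟨n', rfl⟩ : ∃ n', n = n' + 1 := ⟨n - 1, by omega⟩
  by_contra hM
  push Not at hM
  obtain ⟨a, w, J, Z0, N, Xs, τ, T0, Δ, ν, hw1, hXs, hτ, hT0, hν, hΔ, hall⟩ :=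
    hκ (n' + 1) h S hn hh hS
  have hcard : Fintype.card (Mon n' T0) ≤ T0 ^ (n' + 1 - 1) := by
    refine (Fintype.card_subtype_le _).trans ?_
    rw [Fintype.card_fun, Fintype.card_fin, Fintype.card_fin]
    simp
  obtain ⟨hA, hB, hC, hD', hE, hF⟩ := hall _ hcard
  have hq0 : ∀ j, (q j : K) ≠ 0 := by
    intro j hj
    have := hq1 j
    rw [hj, map_zero] at this
    exact zero_ne_one this
  let e : Fin (n' + 1) × Fin a ≃ Fin ((n' + 1) * a) := finProdFinEquiv
  let r : Fin ((n' + 1) * a) → 𝓞 K := fun x => (q (e.symm x).1) ^ (2 ^ ((e.symm x).2 : ℕ))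
  let v : Fin ((n' + 1) * a) → ℕ := fun x => if (e.symm x).1 = j0 then (c j0).toNat else 1
  let c' : Fin ((n' + 1) * a) → Fin n' → ℤ := fun x l =>
    if (e.symm x).1 = j0 then 2 ^ ((e.symm x).2 : ℕ) * c (j0.succAbove l)
    else if (e.symm x).1 = j0.succAbove l then - 2 ^ ((e.symm x).2 : ℕ) else 0
  have hc0nat : ((c j0).toNat : ℤ) = c j0 := Int.toNat_of_nonneg hj0.le
  have hia : ∀ x : Fin ((n' + 1) * a), ((e.symm x).2 : ℕ) ≤ a := fun x => (e.symm x).2.2.le
  have hpow2 : ∀ x : Fin ((n' + 1) * a), (2 : ℤ) ^ ((e.symm x).2 : ℕ) ≤ 2 ^ a := fun x =>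
    pow_le_pow_right₀ (by norm_num) (hia x)
  refine hsim u (Module.finrank ℚ K) n' ((n' + 1) * a) w (h * 2 ^ a) h (S + a) J Z0 N M Xs τ T0 ν Δ
    le_rfl hph (Nat.mul_pos hh (by positivity)) hw1 hXs hτ hT0 hν hΔ hA hB hC hD' hE
    (hF.trans hM.le) (fun l => q (j0.succAbove l)) r v c' (fun l => hq1 _) ?_ ?_ ?_ ?_ ?_ ?_ ?_
  · -- fv r = 1
    intro x
    have : ((r x : 𝓞 K) : K) = (q (e.symm x).1 : K) ^ (2 ^ ((e.symm x).2 : ℕ)) := by
      simp [r]
    rw [this, map_pow, hq1, one_pow]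
  · -- house
    intro x
    have : ((r x : 𝓞 K) : K) = (q (e.symm x).1 : K) ^ (2 ^ ((e.symm x).2 : ℕ)) := by
      simp [r]
    rw [this]
    refine (house_pow_le _ _).trans ?_
    calc house (q (e.symm x).1 : K) ^ (2 ^ ((e.symm x).2 : ℕ))
        ≤ (2 ^ h) ^ (2 ^ ((e.symm x).2 : ℕ)) :=
          pow_le_pow_left₀ (house_nonneg _) (hhouse _) _
      _ = 2 ^ (h * 2 ^ ((e.symm x).2 : ℕ)) := by rw [← pow_mul]
      _ ≤ 2 ^ (h * 2 ^ a) := by
          apply pow_le_pow_right₀ (by norm_num)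
          exact Nat.mul_le_mul_left _ (Nat.pow_le_pow_right (by norm_num) (hia x))
  · -- v positive
    intro x
    simp only [v]
    split_ifs
    · omega
    · norm_num
  · -- v ≤
    intro x
    simp only [v]
    split_ifs
    · have h1 := hcS j0
      rw [abs_of_pos hj0, ← hc0nat] at h1
      have h2 : (c j0).toNat ≤ 2 ^ S := by exact_mod_cast h1
      exact h2.trans (Nat.pow_le_pow_right (by norm_num) (by omega))
    · exact Nat.one_le_two_pow
  · -- |c'| ≤
    intro x l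
    simp only [c']
    split_ifs
    · rw [abs_mul, abs_of_pos (by positivity : (0 : ℤ) < 2 ^ ((e.symm x).2 : ℕ)), mul_comm]
      rw [pow_add]
      exact mul_le_mul (hcS _) (hpow2 x) (by positivity) (by positivity)
    · rw [abs_neg, abs_of_pos (by positivity : (0 : ℤ) < 2 ^ ((e.symm x).2 : ℕ))]
      refine (hpow2 x).trans (pow_le_pow_right₀ (by norm_num) (by omega))
    · simp
  · -- relations
    intro x
    have hr : ((r x : 𝓞 K) : K) = (q (e.symm x).1 : K) ^ (2 ^ ((e.symm x).2 : ℕ)) := by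
      simp [r]
    rw [hr]
    by_cases hx : (e.symm x).1 = j0
    · have hv : v x = (c j0).toNat := by simp [v, hx]
      have hc' : ∀ l, c' x l = 2 ^ ((e.symm x).2 : ℕ) * c (j0.succAbove l) := by
        intro l; simp [c', hx]
      rw [hv, hx]
      simp only [hc']
      have h1 : ((q j0 : K) ^ (2 ^ ((e.symm x).2 : ℕ))) ^ ((c j0).toNat) *
          ∏ l, (q (j0.succAbove l) : K) ^ ((2 : ℤ) ^ ((e.symm x).2 : ℕ) * c (j0.succAbove l))
          = (∏ j, (q j : K) ^ (c j)) ^ (2 ^ ((e.symm x).2 : ℕ)) := by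
        rw [Fin.prod_univ_succAbove _ j0, mul_pow, ← Finset.prod_pow]
        congr 1
        · rw [← zpow_natCast, hc0nat, ← zpow_natCast, ← zpow_mul, ← zpow_natCast, ← zpow_mul,
            mul_comm]
        · apply Finset.prod_congr rfl
          intro l _
          rw [← zpow_natCast, ← zpow_mul, mul_comm]
          push_cast
          rfl
      rw [h1]
      exact (fv_pow_sub_one_le u (fv_prod_zpow u q c hq1) _).trans hsmall
    · have hv : v x = 1 := by simp [v, hx]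
      obtain ⟨l0, hl0⟩ := Fin.exists_succAbove_eq hx
      have hprod : ∏ l, (q (j0.succAbove l) : K) ^ (c' x l)
          = (q (e.symm x).1 : K) ^ (-(2 : ℤ) ^ ((e.symm x).2 : ℕ)) := by
        rw [Finset.prod_eq_single l0]
        · have : c' x l0 = - 2 ^ ((e.symm x).2 : ℕ) := by
            simp only [c']
            rw [if_neg hx, if_pos hl0.symm]
          rw [this, hl0]
        · intro l _ hl
          have : c' x l = 0 := by
            simp only [c']
            rw [if_neg hx, if_neg]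
            intro h'
            apply hl
            exact (Fin.succAbove_right_injective (hl0.trans h')).symm
          rw [this, zpow_zero]
        · intro h'; exact absurd (Finset.mem_univ _) h'
      rw [hv, hprod, pow_one, zpow_neg]
      have : ((q (e.symm x).1 : K) ^ ((2 : ℤ) ^ ((e.symm x).2 : ℕ)))
          = (q (e.symm x).1 : K) ^ (2 ^ ((e.symm x).2 : ℕ)) := by
        rw [← zpow_natCast]; push_cast; rfl
      rw [this, mul_inv_cancel₀ (pow_ne_zero _ (hq0 _)), sub_self, map_zero]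
      exact pow_nonneg ((fv u).nonneg _) _
  · exact prod_inj q hq0 hind

/-- **A single linear form at a prime of a number field.** -/
theorem weakQ (K : Type) [Field K] [NumberField K] : ∃ κ : ℕ, ∀ (u : Pr K) (n h S M : ℕ)
    (q : Fin n → 𝓞 K) (c : Fin n → ℤ), 1 ≤ n → 1 ≤ h → 1 ≤ S → pv u ≤ 2 ^ h →
    (∀ j, house (q j : K) ≤ 2 ^ h) → (∀ j, fv u (q j : K) = 1) →
    (∀ b : Fin n → ℤ, ∏ j, (q j : K) ^ (b j) = 1 → b = 0) → c ≠ 0 → (∀ j, |c j| ≤ 2 ^ S) →
    fv u (∏ j, (q j : K) ^ (c j) - 1) ≤ fv u ((pv u : ℕ) : K) ^ M →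
    M ≤ 2 ^ (κ * (n * h) ^ 3) * (S + 1) ^ (κ * n) := by
  obtain ⟨κ, hκ⟩ := weakQ_pos K
  refine ⟨κ, ?_⟩
  intro u n h S M q c hn hh hS hph hhouse hq1 hind hc hcS hsmall
  by_cases hpos : ∃ j, 0 < c j
  · exact hκ u n h S M q c hn hh hS hph hhouse hq1 hind hpos hcS hsmall
  · push Not at hpos
    have hneg : ∃ j, 0 < (fun j => - c j) j := by
      by_contra hcon
      push Not at hcon
      apply hc
      funext j
      have h1 := hpos j
      have h2 := hcon j
      simp only [Pi.zero_apply]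
      have h3 : -c j ≤ 0 := h2
      omega
    refine hκ u n h S M q (fun j => - c j) hn hh hS hph hhouse hq1 hind hneg ?_ ?_
    · intro j; rw [abs_neg]; exact hcS j
    · have e1 : ∏ j, (q j : K) ^ (-c j) = (∏ j, (q j : K) ^ (c j))⁻¹ := by
        rw [← Finset.prod_inv_distrib]
        exact Finset.prod_congr rfl fun j _ => zpow_neg _ _
      rw [e1, fv_inv_sub_one u (fv_prod_zpow u q c hq1)]
      exact hsmall

end Pool.Agent.Y812
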